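import Pool.Agent.H896.SC.Root

/-!
# The maximum principle on cyclic coverings of the complex plane
-/

set_option autoImplicit false

namespace Pool.Agent.H896.SC

open Filter Topology Set

/-- A plurisubharmonic function on a cyclic covering of the plane does not decay. -/
theorem no_decay_cover {N : ℕ} {f : Fin N → ℂ → ℂ} (hf : ∀ i, Differentiable ℂ (f i))
    {q : Fin N → ℕ} (hq : ∀ i, 1 ≤ q i) {X : ℂ × (Fin N → ℂ) → ℝ} (hX0 : ∀ p, 0 ≤ X p)
    (husc : UpperSemicontinuousOn X {p | ∀ i, p.2 i ^ q i = f i p.1})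
    (hmean : ∀ (τ : ℂ → ℂ) (y : ℂ → Fin N → ℂ) (ρ : ℝ), 0 < ρ →
      AnalyticOnNhd ℂ τ (Metric.closedBall 0 ρ) → AnalyticOnNhd ℂ y (Metric.closedBall 0 ρ) →
      (∀ s : ℂ, ‖s‖ ≤ ρ → ∀ i, y s i ^ q i = f i (τ s)) → ∀ ε : ℝ, 0 < ε →
      Real.log (max (X (τ 0, y 0)) ε) ≤
        Real.circleAverage (fun s => Real.log (max (X (τ s, y s)) ε)) 0 ρ)
    (hdec : ∀ ε : ℝ, 0 < ε → ∃ R : ℝ, ∀ p : ℂ × (Fin N → ℂ), (∀ i, p.2 i ^ q i = f i p.1) →
      R ≤ ‖p.1‖ → X p ≤ ε)
    {p : ℂ × (Fin N → ℂ)} (hp : ∀ i, p.2 i ^ q i = f i p.1) : X p = 0 := by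
  by_contra hne
  have hpos : 0 < X p := lt_of_le_of_ne (hX0 p) (Ne.symm hne)
  obtain ⟨R, hR⟩ := hdec (X p / 2) (by positivity)
  set K : Set (ℂ × (Fin N → ℂ)) :=
    {p | p.1 ∈ Metric.closedBall (0 : ℂ) R ∧ ∀ i, p.2 i ^ q i = f i p.1} with hKdef
  have hK : IsCompact K := compact_cover (isCompact_closedBall _ _) hq fun i =>
    (hf i).continuous.continuousOn
  have hKmem : ∀ p' : ℂ × (Fin N → ℂ), (∀ i, p'.2 i ^ q i = f i p'.1) → X p / 2 < X p' →
      p' ∈ K := by
    intro p' hp' hlt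
    refine ⟨?_, hp'⟩
    rw [mem_closedBall_zero_iff]
    by_contra hcon
    push Not at hcon
    have := hR p' hp' hcon.le
    linarith
  have hpK : p ∈ K := hKmem p hp (by linarith)
  have huK : UpperSemicontinuousOn X K := husc.mono fun p hp => hp.2
  obtain ⟨p1, hp1, hmax⟩ := huK.exists_isMaxOn ⟨p, hpK⟩ hK
  obtain ⟨M, hM⟩ : ∃ M, M = X p1 := ⟨_, rfl⟩
  have hpM : X p ≤ M := by
    rw [hM]
    exact hmax hpK
  have hM0 : 0 < M := hpos.trans_le hpM
  have hall : ∀ p' : ℂ × (Fin N → ℂ), (∀ i, p'.2 i ^ q i = f i p'.1) → X p' ≤ M := by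
    intro p' hp'
    by_cases h1 : X p / 2 < X p'
    · rw [hM]
      exact hmax (hKmem p' hp' h1)
    · push Not at h1
      linarith
  have hP : IsCompact (K ∩ X ⁻¹' Ici M) := huK.isCompact_inter_preimage_Ici hK M
  obtain ⟨p0, hp0, hmaxre⟩ := hP.exists_isMaxOn (f := fun p : ℂ × (Fin N → ℂ) => p.1.re)
    ⟨p1, hp1, hM.le⟩ (Continuous.continuousOn (by fun_prop))
  -- the lift
  obtain ⟨Q, hQ⟩ : ∃ Q, Q = ∏ i, q i := ⟨_, rfl⟩
  have hQ1 : 1 ≤ Q := by
    rw [hQ]
    exact Finset.one_le_prod' fun i _ => hq i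
  have hQd : ∀ i, ∃ Q', q i * Q' = Q := fun i => by
    obtain ⟨Q', h⟩ : q i ∣ Q := by
      rw [hQ]
      exact Finset.dvd_prod_of_mem q (Finset.mem_univ i)
    exact ⟨Q', h.symm⟩
  choose Q' hQ' using hQd
  have hQ'1 : ∀ i, 1 ≤ Q' i := fun i => by
    rcases Nat.eq_zero_or_pos (Q' i) with h | h
    · have := hQ' i
      rw [h, mul_zero] at this
      omega
    · exact h
  have hlift : ∀ i, ∃ y : ℂ → ℂ, AnalyticAt ℂ y 0 ∧ y 0 = p0.2 i ∧
      ∀ᶠ s in 𝓝 (0 : ℂ), y s ^ q i = f i (p0.1 + s ^ Q) := by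
    intro i
    have h1 := local_lift ((hf i).analyticAt p0.1) (hq i) (hQ'1 i) (hp0.1.2 i)
    rw [hQ'] at h1
    exact h1
  choose Y hY hY0 hYe using hlift
  have hyan : AnalyticAt ℂ (fun s i => Y i s) 0 := AnalyticAt.pi fun i => hY i
  have hev : ∀ᶠ s in 𝓝 (0 : ℂ), AnalyticAt ℂ (fun s i => Y i s) s ∧
      ∀ i, Y i s ^ q i = f i (p0.1 + s ^ Q) :=
    hyan.eventually_analyticAt.and (eventually_all.2 hYe)
  obtain ⟨ρ, hρ, hρs⟩ := Metric.nhds_basis_closedBall.eventually_iff.1 hev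
  set τ : ℂ → ℂ := fun s => p0.1 + s ^ Q with hτ
  set y : ℂ → Fin N → ℂ := fun s i => Y i s with hy
  have hQ0 : Q ≠ 0 := by omega
  have hτ0 : τ 0 = p0.1 := by
    rw [hτ]
    change p0.1 + 0 ^ Q = p0.1
    rw [zero_pow hQ0, add_zero]
  have hy0 : y 0 = p0.2 := funext fun i => hY0 i
  have hS : ∀ s : ℂ, ‖s‖ ≤ ρ → ∀ i, y s i ^ q i = f i (τ s) := fun s hs =>
    (hρs (by rwa [mem_closedBall_zero_iff])).2
  have hyana : AnalyticOnNhd ℂ y (Metric.closedBall 0 ρ) := fun s hs => (hρs hs).1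
  have h1 := hmean τ y ρ hρ (fun s _ => analyticAt_const.add (analyticAt_id.pow _)) hyana hS
    (M / 2) (by positivity)
  have hX0M : X (τ 0, y 0) = M := by
    rw [hτ0, hy0]
    exact le_antisymm (hall _ hp0.1.2) hp0.2
  rw [hX0M, max_eq_left (by linarith)] at h1
  set F : ℝ → ℝ := fun θ => Real.log (max (X (τ (circleMap 0 ρ θ), y (circleMap 0 ρ θ))) (M / 2))
    with hF
  have hcm : ∀ θ, ‖circleMap (0 : ℂ) ρ θ‖ ≤ ρ := fun θ => by
    rw [norm_circleMap_zero, abs_of_pos hρ]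
  have hFle : ∀ θ, F θ ≤ Real.log M := by
    intro θ
    refine Real.log_le_log (by positivity) (max_le ?_ (by linarith))
    exact hall _ (hS _ (hcm θ))
  have hFge : ∀ θ, Real.log (M / 2) ≤ F θ := fun θ =>
    Real.log_le_log (by positivity) (le_max_right _ _)
  have hFm : Measurable F := by
    have h2 : Continuous fun θ : ℝ => (τ (circleMap 0 ρ θ), y (circleMap 0 ρ θ)) := by
      refine Continuous.prodMk (by fun_prop) ?_
      have h3 : ContinuousOn y (Metric.closedBall 0 ρ) := hyana.continuousOn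
      exact h3.comp_continuous (continuous_circleMap 0 ρ) fun θ => by
        rw [mem_closedBall_zero_iff]
        exact hcm θ
    have h3 : UpperSemicontinuous fun θ : ℝ =>
        X (τ (circleMap 0 ρ θ), y (circleMap 0 ρ θ)) := by
      rw [← upperSemicontinuousOn_univ_iff]
      exact husc.comp h2.continuousOn fun θ _ => hS _ (hcm θ)
    exact Real.measurable_log.comp (h3.measurable.max measurable_const)
  have hFi : MeasureTheory.IntegrableOn F (Ioc 0 (2 * Real.pi)) := by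
    refine MeasureTheory.Measure.integrableOn_of_bounded (M := |Real.log (M / 2)| + |Real.log M|)
      ?_ hFm.aestronglyMeasurable ?_
    · rw [Real.volume_Ioc]
      exact ENNReal.ofReal_ne_top
    · refine Filter.Eventually.of_forall fun θ => ?_
      rw [Real.norm_eq_abs, abs_le]
      have h4 := hFle θ
      have h5 := hFge θ
      have h6 := neg_abs_le (Real.log (M / 2))
      have h7 := le_abs_self (Real.log M)
      have h8 := abs_nonneg (Real.log M)
      have h9 := abs_nonneg (Real.log (M / 2))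
      constructor <;> linarith
  have h2pi : (0 : ℝ) < 2 * Real.pi := by positivity
  have hci : MeasureTheory.Integrable (fun _ : ℝ => Real.log M)
      (MeasureTheory.volume.restrict (Ioc 0 (2 * Real.pi))) := MeasureTheory.integrable_const _
  have hint : ∫ θ in Ioc 0 (2 * Real.pi), (Real.log M - F θ) ≤ 0 := by
    have h4 : Real.circleAverage (fun s => Real.log (max (X (τ s, y s)) (M / 2))) 0 ρ =
        (2 * Real.pi)⁻¹ * ∫ θ in Ioc 0 (2 * Real.pi), F θ := by
      rw [Real.circleAverage, intervalIntegral.integral_of_le h2pi.le, smul_eq_mul]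
    rw [h4, ← div_eq_inv_mul, le_div_iff₀ h2pi] at h1
    rw [MeasureTheory.integral_sub hci hFi, MeasureTheory.setIntegral_const, Real.volume_real_Ioc,
      sub_zero, max_eq_left h2pi.le, smul_eq_mul]
    linarith
  have hnn : ∀ θ, 0 ≤ Real.log M - F θ := fun θ => sub_nonneg.2 (hFle θ)
  have hint0 : ∫ θ in Ioc 0 (2 * Real.pi), (Real.log M - F θ) = 0 :=
    le_antisymm hint (MeasureTheory.integral_nonneg fun θ => hnn θ)
  have hae := (MeasureTheory.integral_eq_zero_iff_of_nonneg (fun θ => hnn θ)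
    (hci.sub hFi)).1 hint0
  rw [Filter.EventuallyEq, MeasureTheory.ae_restrict_iff' measurableSet_Ioc] at hae
  -- a point on the arc
  have hQr : (0 : ℝ) < Q := by exact_mod_cast hQ1
  obtain ⟨θ, hθ, hθ0⟩ : ∃ θ ∈ Ioo (0 : ℝ) (Real.pi / (2 * Q)), Real.log M - F θ = 0 := by
    by_contra hcon
    push Not at hcon
    have h4 : MeasureTheory.volume (Ioo (0 : ℝ) (Real.pi / (2 * Q))) = 0 := by
      refine MeasureTheory.measure_mono_null ?_ hae
      intro θ hθ
      simp only [Set.mem_ofPred_eq, Set.mem_compl_iff]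
      intro hcon2
      refine hcon θ hθ (hcon2 ⟨hθ.1, hθ.2.le.trans ?_⟩)
      rw [div_le_iff₀ (by positivity)]
      have h5 : (1 : ℝ) ≤ Q := by exact_mod_cast hQ1
      nlinarith [Real.pi_pos]
    rw [Real.volume_Ioo, sub_zero, ENNReal.ofReal_eq_zero] at h4
    have h5 : 0 < Real.pi / (2 * Q) := by positivity
    linarith
  obtain ⟨s, hs⟩ : ∃ s, s = circleMap (0 : ℂ) ρ θ := ⟨_, rfl⟩
  have hsρ : ‖s‖ ≤ ρ := by rw [hs]; exact hcm θ
  have hXs : X (τ s, y s) = M := by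
    have h4 : Real.log (max (X (τ s, y s)) (M / 2)) = Real.log M := by
      rw [hs]
      linarith
    have h5 := Real.log_injOn_pos (Set.mem_Ioi.2 (by positivity)) (Set.mem_Ioi.2 hM0) h4
    rcases max_choice (X (τ s, y s)) (M / 2) with h6 | h6
    · rw [h6] at h5
      exact h5
    · rw [h6] at h5
      linarith
  have hmem : (τ s, y s) ∈ K ∩ X ⁻¹' Ici M := by
    refine ⟨hKmem _ (hS s hsρ) ?_, hXs.ge⟩
    rw [hXs]
    linarith
  have h4 : (τ s).re ≤ p0.1.re := hmaxre hmem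
  have h5 : (τ s).re = p0.1.re + ρ ^ Q * Real.cos (Q * θ) := by
    rw [hτ]
    change (p0.1 + s ^ Q).re = _
    rw [Complex.add_re, hs, circleMap, zero_add, mul_pow, ← Complex.exp_nat_mul,
      show (Q : ℂ) * (θ * Complex.I) = ((Q * θ : ℝ) : ℂ) * Complex.I by push_cast; ring,
      Complex.exp_mul_I, ← Complex.ofReal_cos, ← Complex.ofReal_sin, ← Complex.ofReal_pow,
      Complex.re_ofReal_mul, Complex.add_re, Complex.ofReal_re, Complex.re_ofReal_mul,
      Complex.I_re, mul_zero, add_zero]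
  have h6 : 0 < Real.cos (Q * θ) := by
    refine Real.cos_pos_of_mem_Ioo ⟨?_, ?_⟩
    · have : 0 < (Q : ℝ) * θ := mul_pos hQr hθ.1
      linarith [Real.pi_pos]
    · have h7 := hθ.2
      rw [lt_div_iff₀ (by positivity)] at h7
      linarith
  have h7 : 0 < ρ ^ Q * Real.cos (Q * θ) := mul_pos (pow_pos hρ _) h6
  linarith

end Pool.Agent.H896.SC
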