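import Pool.Agent.H896.GN.Stmt
import Mathlib.MeasureTheory.Integral.CircleAverage
import Mathlib.LinearAlgebra.Basis.Basic

/-!
# Singular metrics and total scalar curvature on coverings of isometry quotients

See `Pool.Agent.H896.IQ.Stmt` and `Pool.Agent.H896.IR.Stmt` for the groups, the line bundles, the pairs
and the classes, and `Pool.Agent.H896.GN.Stmt` for the coverings `Y → X`.
-/

set_option autoImplicit false

namespace Pool.Agent.H896.IG

open MvPolynomial Pool.Agent.T2H08.FB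

variable {n c : ℕ} {r : Fin c → ℕ} {Γ : Subgroup (Trans n r)} {N : ℕ}

/-! ### Pluricanonical forms -/

/-- The line bundle `K ^ (M Q) ⊗ ⨂ D_i ^ (M m (q i - 1) Q / q i)`, `Q = ∏ q i`, for `K = O_X (m K_X)`: its
pullback to `Y` is `O_Y (M m Q K_Y)`, because `K_Y` is the pullback of `K_X + ∑ (1 - 1 / q i) D_i`. -/
noncomputable def coverCanonical (K : LineBundle Γ) (D : Fin N → LineBundle Γ) (m : ℕ)
    (q : Fin N → ℕ) (M : ℕ) : LineBundle Γ :=
  K.adj D (M * ∏ i, q i) fun i => M * (m * ((q i - 1) * ((∏ k, q k) / q i)))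

/-- The Kodaira dimension of `Y` is not `-∞`: there is a nonzero pluricanonical form. (If `K_Y ^ k` has a
nonzero section, then so have the powers `K_Y ^ (M m Q)` which are divisible by `k`.) -/
def HasPluricanonicalForm (K : LineBundle Γ) (D R : Fin N → LineBundle Γ) (m : ℕ) (q : Fin N → ℕ)
    (β : Fin N → (Fin n → ℂ) → MvPolynomial (Co r) ℂ) : Prop :=
  ∃ M : ℕ, 1 ≤ M ∧ ∃ S s, (coverCanonical K D m q M).IsCoverSection R 1 S s ∧
    ∃ v z y, IsCoverPt q β v z y ∧ coverVal S s v z y ≠ 0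

/-- `K_Y` is semiample: for some `M ≥ 1` the sections of `K_Y ^ (M m Q)` have no common zero. -/
def IsCoverCanonicalSemiample (K : LineBundle Γ) (D R : Fin N → LineBundle Γ) (m : ℕ)
    (q : Fin N → ℕ) (β : Fin N → (Fin n → ℂ) → MvPolynomial (Co r) ℂ) : Prop :=
  ∃ M : ℕ, 1 ≤ M ∧ ∀ v z y, IsCoverPt q β v z y →
    ∃ S s, (coverCanonical K D m q M).IsCoverSection R 1 S s ∧ coverVal S s v z y ≠ 0

/-! ### Singular metrics -/

/-- The function `log χ`, with values in `[-∞, ∞)`, is plurisubharmonic on the set of the `(v, z, y)`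
which give points of `Y`: `χ` is upper semicontinuous, and for all `ε > 0` the function `log (max χ ε)`
has the sub-mean value property on all holomorphic discs in this set. -/
structure IsCoverLogPsh (q : Fin N → ℕ) (β : Fin N → (Fin n → ℂ) → MvPolynomial (Co r) ℂ)
    (χ : (Fin n → ℂ) → (Co r → ℂ) → (Fin N → ℂ) → ℝ) : Prop where
  nonneg : ∀ v z y, 0 ≤ χ v z y
  usc : UpperSemicontinuousOn
    (fun p : (Fin n → ℂ) × (Co r → ℂ) × (Fin N → ℂ) => χ p.1 p.2.1 p.2.2)
    {p | IsCoverPt q β p.1 p.2.1 p.2.2}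
  mean : ∀ (a : ℂ → Fin n → ℂ) (b : ℂ → Co r → ℂ) (y : ℂ → Fin N → ℂ) (R : ℝ), 0 < R →
    AnalyticOnNhd ℂ a (Metric.closedBall 0 R) → AnalyticOnNhd ℂ b (Metric.closedBall 0 R) →
    AnalyticOnNhd ℂ y (Metric.closedBall 0 R) →
    (∀ t : ℂ, ‖t‖ ≤ R → IsCoverPt q β (a t) (b t) (y t)) → ∀ ε : ℝ, 0 < ε →
      Real.log (max (χ (a 0) (b 0) (y 0)) ε) ≤
        Real.circleAverage (fun t : ℂ => Real.log (max (χ (a t) (b t) (y t)) ε)) 0 R

/-- The pullback to `Y` of the class `x = (H, δ)` on `X` is pseudo-effective: it contains a closed positive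
current. That is, there is a function `ψ` on `Y` with values in `[-∞, ∞)`, not identically `-∞`, such that
`π H (v, v) + ∑ δ j log |z_j|² + ψ` is plurisubharmonic. Here `E = exp ψ`. For the class of `K_Y` this says
that `K_Y` has a singular hermitian metric whose curvature current is positive. -/
def HasCoverCurrent (Γ : Subgroup (Trans n r)) (R : Fin N → LineBundle Γ) (q : Fin N → ℕ)
    (β : Fin N → (Fin n → ℂ) → MvPolynomial (Co r) ℂ) (x : RealClass n c) : Prop :=
  ∃ E : (Fin n → ℂ) → (Co r → ℂ) → (Fin N → ℂ) → ℝ,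
    (∀ g ∈ Γ, ∀ v z y, IsCoverPt q β v z y →
      E (onV g v) (onZ g z) (fun i => (R i).e g v * y i) = E v z y) ∧
    (∀ (μ : Fin c → ℂˣ) v z y, IsCoverPt q β v z y →
      E v (mulBy μ z) (fun i => (∏ j, (μ j : ℂ) ^ (R i).deg j) * y i) = E v z y) ∧
    (∃ v z y, IsCoverPt q β v z y ∧ E v z y ≠ 0) ∧
    (∀ v z y, 0 ≤ E v z y) ∧
    UpperSemicontinuousOn
      (fun p : (Fin n → ℂ) × (Co r → ℂ) × (Fin N → ℂ) => E p.1 p.2.1 p.2.2)
      {p | IsCoverPt q β p.1 p.2.1 p.2.2} ∧
    IsCoverLogPsh q β fun v z y =>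
      E v z y * (Real.exp (Real.pi * (x.1 v v).re) * ∏ j, (∑ i, ‖z ⟨j, i⟩‖ ^ 2) ^ x.2 j)

/-! ### Total scalar curvature -/

/-- There is a Kähler metric `ω = A + ∑ a j ω_j` on `V × F`, invariant under `Γ`, for which the trace of the
class `x = (H, δ)` is negative. Here `A` is a positive definite hermitian form on `V`, `a j > 0`, `ω_j` is
the Fubini-Study metric of the `j`-th factor, and the trace of `H + ∑ δ j ω_j` with respect to `ω` is
`∑ H (b_k, b_k) + ∑ r_j δ j / a j` for a basis `b_k` of `V` which is orthonormal for `A`.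

If `x` is the class on `X` whose pullback to `Y` is `c_1 (K_Y)`, then the number `K_Y · π^* [ω] ^ (d - 1)`,
`d = dim Y`, is a positive multiple of this trace, and the total scalar curvature of the Kähler metrics in a
Kähler class `α` on `Y` is a negative multiple of `K_Y · α ^ (d - 1)`. So the Kähler metrics in the
classes near `π^* [ω]` have positive total scalar curvature. -/
def HasPositiveTotalScalarCurvature (Γ : Subgroup (Trans n r)) (x : RealClass n c) : Prop :=
  ∃ (A : (Fin n → ℂ) → (Fin n → ℂ) → ℂ) (a : Fin c → ℝ) (b : Module.Basis (Fin n) ℂ (Fin n → ℂ)),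
    Pool.Agent.W594.SYZ2.IsHermitian A ∧ (∀ v, v ≠ 0 → 0 < (A v v).re) ∧ (∀ j, 0 < a j) ∧
    (∀ g ∈ Γ, ∀ v w, A (onV g v - onV g 0) (onV g w - onV g 0) = A v w) ∧
    (∀ g ∈ Γ, ∀ π, Permutes g π → ∀ j, a (π j) = a j) ∧
    (∀ i k, A (b i) (b k) = if i = k then 1 else 0) ∧
    ∑ k, (x.1 (b k) (b k)).re + ∑ j, r j * x.2 j / a j < 0

end Pool.Agent.H896.IG
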