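import Pool.Agent.H896.CT.Cur2
import Pool.Agent.H896.SC.Stmt
import Pool.Agent.H896.SC.Max

/-!
# Positive currents on coverings
-/

set_option autoImplicit false

namespace Pool.Agent.H896.IG

open MvPolynomial Pool.Agent.T2H08.FB Pool.Agent.W594.SYZ2 Pool.Agent.W594.SYZ2.TQ
  Pool.Agent.TH735.AQ
open Pool.Agent.T2H08 Pool.Agent.H896.IQ

variable {n c : ℕ} {r : Fin c → ℕ} {Γ : Subgroup (Trans n r)} {N : ℕ}
  {D R : Fin N → LineBundle Γ} {q : Fin N → ℕ}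
  {β : Fin N → (Fin n → ℂ) → MvPolynomial (Co r) ℂ} {κ : Fin N → Fin c → ℕ}

/-! ### The action on the covering -/

theorem eval_mulBy (hβ : ∀ i, IsCartier (D i) (β i) (κ i)) (hR : ∀ i, IsRoot (R i) (q i) (D i))
    (μ : Fin c → ℂˣ) (v : Fin n → ℂ) (z : Co r → ℂ) (i : Fin N) :
    eval (mulBy μ z) (β i v) = (∏ j, (μ j : ℂ) ^ (R i).deg j) ^ q i * eval z (β i v) := by
  have h2 := eval_scal ((eff_conv (hβ i).effective).homog v) μ z
  change eval (FQ.scal μ z) (β i v) = _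
  rw [h2, ← Finset.prod_pow]
  congr 1
  refine Finset.prod_congr rfl fun j _ => ?_
  rw [← zpow_natCast, ← zpow_natCast, ← zpow_mul]
  congr 1
  rw [← (hβ i).deg j, (hR i).1 j]
  ring

theorem coverPt_mulBy (hβ : ∀ i, IsCartier (D i) (β i) (κ i))
    (hR : ∀ i, IsRoot (R i) (q i) (D i)) (μ : Fin c → ℂˣ) {v : Fin n → ℂ} {z : Co r → ℂ}
    {y : Fin N → ℂ} (h : IsCoverPt q β v z y) :
    IsCoverPt q β v (mulBy μ z) fun i => (∏ j, (μ j : ℂ) ^ (R i).deg j) * y i := by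
  refine ⟨fun j => ?_, fun i => ?_⟩
  · obtain ⟨i, hi⟩ := h.1 j
    exact ⟨i, mul_ne_zero (μ j).ne_zero hi⟩
  · rw [mul_pow, h.2 i, eval_mulBy hβ hR]

theorem coverPt_act (hβ : ∀ i, IsCartier (D i) (β i) (κ i))
    (hR : ∀ i, IsRoot (R i) (q i) (D i)) {g : Trans n r} (hg : g ∈ Γ) {v : Fin n → ℂ}
    {z : Co r → ℂ} {y : Fin N → ℂ} (hz : IsPt (onZ g z)) (h : IsCoverPt q β v z y) :
    IsCoverPt q β (onV g v) (onZ g z) fun i => (R i).e g v * y i := by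
  refine ⟨hz, fun i => ?_⟩
  rw [mul_pow, h.2 i, (hβ i).eq g hg, (hR i).2 g hg]

/-- invariant bounded -/
theorem cover_bdd (hΓ : IsIsometryGroup Γ) (hβ : ∀ i, IsCartier (D i) (β i) (κ i))
    (hR : ∀ i, IsRoot (R i) (q i) (D i)) (hq : ∀ i, 1 ≤ q i)
    {E : (Fin n → ℂ) → (Co r → ℂ) → (Fin N → ℂ) → ℝ}
    (h1 : ∀ g ∈ Γ, ∀ v z y, IsCoverPt q β v z y →
      E (onV g v) (onZ g z) (fun i => (R i).e g v * y i) = E v z y)
    (h2 : ∀ (μ : Fin c → ℂˣ) v z y, IsCoverPt q β v z y →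
      E v (mulBy μ z) (fun i => (∏ j, (μ j : ℂ) ^ (R i).deg j) * y i) = E v z y)
    (h3 : UpperSemicontinuousOn
      (fun p : (Fin n → ℂ) × (Co r → ℂ) × (Fin N → ℂ) => E p.1 p.2.1 p.2.2)
      {p | IsCoverPt q β p.1 p.2.1 p.2.2}) :
    ∃ C : ℝ, ∀ v z y, IsCoverPt q β v z y → E v z y ≤ C := by
  obtain ⟨C, hC⟩ := cobounded (latt (FQ.GA (fac Γ))) (isUQ hΓ).torus.span_top
  have hK : IsCompact (Metric.closedBall (0 : Fin n → ℂ) C ×ˢ {z : Co r → ℂ | IsUnit' z}) :=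
    (isCompact_closedBall _ _).prod isCompact_unit
  have hpt : ∀ z : Co r → ℂ, IsUnit' z → IsPt z := by
    intro z hz j
    by_contra hcon
    push Not at hcon
    have h4 := hz j
    rw [Finset.sum_eq_zero fun i _ => by rw [hcon i]; simp] at h4
    exact zero_ne_one h4
  have hβc : ∀ i, FQ.IsEffective (β i) (κ i) := fun i => eff_conv (hβ i).effective
  have hK2 := SC.compact_cover hK hq
    (f := fun i (p : (Fin n → ℂ) × (Co r → ℂ)) => eval p.2 (β i p.1)) fun i =>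
      (FQ.holo_eval (hβc i).holo (hβc i).homog).continuous.continuousOn
  have h4 : UpperSemicontinuousOn
      ((fun p : (Fin n → ℂ) × (Co r → ℂ) × (Fin N → ℂ) => E p.1 p.2.1 p.2.2) ∘
        fun p : ((Fin n → ℂ) × (Co r → ℂ)) × (Fin N → ℂ) => (p.1.1, p.1.2, p.2))
      {p : ((Fin n → ℂ) × (Co r → ℂ)) × (Fin N → ℂ) |
        p.1 ∈ (Metric.closedBall (0 : Fin n → ℂ) C ×ˢ {z : Co r → ℂ | IsUnit' z}) ∧
          ∀ i, p.2 i ^ q i = eval p.1.2 (β i p.1.1)} :=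
    h3.comp (Continuous.continuousOn (by fun_prop)) fun p hp => ⟨hpt _ hp.1.2, hp.2⟩
  obtain ⟨B, hB⟩ := h4.bddAbove_of_isCompact hK2
  refine ⟨B, fun v z y hp => ?_⟩
  obtain ⟨μ, hμ⟩ := exists_unit hp.1
  rw [← h2 μ v z y hp]
  have hp2 := coverPt_mulBy hβ hR μ hp
  obtain ⟨b, hb, hbC⟩ := hC v
  obtain ⟨A, hA⟩ := FQ.mem_GA.1 (mem_latt.1 hb)
  obtain ⟨g, hg⟩ : ∃ g : Trans n r, g = ((AffineEquiv.constVAdd ℂ (Fin n → ℂ) b, A) :
    FQ.Grp n r) := ⟨_, rfl⟩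
  have h5 : g ∈ Γ ∧ Permutes g 1 := by
    rw [hg]
    exact hA
  rw [← h1 g h5.1 v _ _ hp2]
  have hun : IsUnit' (onZ g (mulBy μ z)) := fun j => by
    have h6 := h5.2 (mulBy μ z) j
    exact h6.trans (hμ j)
  have hp3 := coverPt_act hβ hR h5.1 (hpt _ hun) hp2
  refine hB ⟨((onV g v, onZ g (mulBy μ z)), _), ⟨⟨?_, hun⟩, hp3.2⟩, rfl⟩
  rw [mem_closedBall_zero_iff]
  have h6 : onV g v = b + v := by rw [hg]; rfl
  rw [h6]
  exact hbC

/-! ### Decay of the weights -/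

theorem decay_V {x : RealClass n c} (hx : IsHermitian x.1) {v w : Fin n → ℂ} {z : Co r → ℂ}
    (hz : IsPt z) (hneg : (x.1 w w).re < 0) {C : ℝ} (hC0 : 0 ≤ C) {ε : ℝ} (hε : 0 < ε) :
    ∃ R₀ : ℝ, ∀ t : ℂ, R₀ ≤ ‖t‖ → C * wgt r x (v + t • w) z ≤ ε := by
  set P : ℝ := ∏ j, (∑ i, ‖z ⟨j, i⟩‖ ^ 2) ^ x.2 j with hP
  have hP0 : 0 ≤ P := Finset.prod_nonneg fun j _ => (Real.rpow_pos_of_pos (nsq_pos hz j) _).le
  set κ : ℝ := -(x.1 w w).re with hκ
  have hκ0 : 0 < κ := neg_pos.2 hneg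
  set a : ℝ := ‖x.1 w v‖ with ha
  have ha0 : 0 ≤ a := norm_nonneg _
  set b : ℝ := C * P / (ε * Real.pi) with hb
  have hb0 : 0 ≤ b := by positivity
  refine ⟨max 1 ((|(x.1 v v).re| + 2 * a + b) / κ), fun t ht => ?_⟩
  obtain ⟨R, hR⟩ : ∃ R, R = ‖t‖ := ⟨_, rfl⟩
  have hR1 : 1 ≤ R := by
    rw [hR]
    exact (le_max_left _ _).trans ht
  have hR0 : 0 < R := by linarith
  have hR2 : |(x.1 v v).re| + 2 * a + b ≤ R * κ := by
    rw [← div_le_iff₀ hκ0, hR]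
    exact (le_max_right _ _).trans ht
  change C * (Real.exp (Real.pi * (x.1 (v + t • w) (v + t • w)).re) * P) ≤ ε
  have e1 : (x.1 (v + t • w) (v + t • w)).re
      = (x.1 v v).re + ‖t‖ ^ 2 * (x.1 w w).re + 2 * (t * x.1 w v).re := by
    rw [add_comm v, h_diag_add hx, h_diag_smul hx, hx.smul_left]
    ring
  have e2 : (t * x.1 w v).re ≤ R * a := by
    refine (Complex.re_le_norm _).trans ?_
    rw [norm_mul, ← hR]
  have e3 : (x.1 (v + t • w) (v + t • w)).re ≤ -b := by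
    rw [e1, ← hR]
    have h4 : (x.1 v v).re ≤ |(x.1 v v).re| := le_abs_self _
    have h5 : 0 ≤ |(x.1 v v).re| := abs_nonneg _
    have h6 : R * (|(x.1 v v).re| + 2 * a + b) ≤ R * (R * κ) :=
      mul_le_mul_of_nonneg_left hR2 hR0.le
    have h7 : (x.1 w w).re = -κ := by rw [hκ, neg_neg]
    rw [h7]
    nlinarith
  have e4 : Real.exp (Real.pi * (x.1 (v + t • w) (v + t • w)).re) ≤ Real.exp (-(Real.pi * b)) := by
    apply Real.exp_le_exp.2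
    nlinarith [Real.pi_pos]
  have e5 : Real.exp (-(Real.pi * b)) * (C * P) ≤ ε := by
    rw [Real.exp_neg, inv_mul_le_iff₀ (Real.exp_pos _)]
    have h4 := Real.add_one_le_exp (Real.pi * b)
    have h5 : Real.pi * b = C * P / ε := by
      rw [hb]
      field_simp
    rw [h5] at h4 ⊢
    have h6 : C * P = (C * P / ε) * ε := by field_simp
    nlinarith [Real.exp_pos (C * P / ε)]
  calc C * (Real.exp (Real.pi * (x.1 (v + t • w) (v + t • w)).re) * P)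
      ≤ C * (Real.exp (-(Real.pi * b)) * P) :=
        mul_le_mul_of_nonneg_left (mul_le_mul_of_nonneg_right e4 hP0) hC0
    _ = Real.exp (-(Real.pi * b)) * (C * P) := by ring
    _ ≤ ε := e5

/-- a vector in the direction of the `j`-th factor -/
theorem exists_dir (hΓ : IsIsometryGroup Γ) {z : Co r → ℂ} (hz : IsPt z) (j : Fin c) :
    ∃ (y : Co r → ℂ) (i1 : Fin (r j + 1)), (∀ t : ℂ, IsPt (z + t • y)) ∧
      (∀ j' i, j' ≠ j → y ⟨j', i⟩ = 0) ∧ y ⟨j, i1⟩ = 1 := by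
  classical
  obtain ⟨i0, hi0⟩ := hz j
  obtain ⟨i1, hi1⟩ : ∃ i1 : Fin (r j + 1), i1 ≠ i0 := by
    have hr := hΓ.pos j
    have : Nontrivial (Fin (r j + 1)) := Fin.nontrivial_iff_two_le.2 (by omega)
    exact exists_ne i0
  set y : Co r → ℂ := Pi.single ⟨j, i1⟩ 1 with hy
  have hyj : ∀ j' i, j' ≠ j → y ⟨j', i⟩ = 0 := by
    intro j' i hj'
    rw [hy]
    exact Pi.single_eq_of_ne (fun h => hj' (congrArg Sigma.fst h)) _
  have hy0 : y ⟨j, i0⟩ = 0 := by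
    rw [hy]
    refine Pi.single_eq_of_ne (fun h => hi1 ?_) _
    have h4 := (Sigma.mk.injEq _ _ _ _).mp h
    exact (eq_of_heq h4.2).symm
  refine ⟨y, i1, fun t j' => ?_, hyj, ?_⟩
  · by_cases hj : j' = j
    · subst hj
      refine ⟨i0, ?_⟩
      change z ⟨j', i0⟩ + t * y ⟨j', i0⟩ ≠ 0
      rw [hy0, mul_zero, add_zero]
      exact hi0
    · obtain ⟨i, hi⟩ := hz j'
      refine ⟨i, ?_⟩
      change z ⟨j', i⟩ + t * y ⟨j', i⟩ ≠ 0
      rw [hyj j' i hj, mul_zero, add_zero]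
      exact hi
  · rw [hy]
    exact Pi.single_eq_same _ _

theorem decay_F {x : RealClass n c} {v : Fin n → ℂ} {z y : Co r → ℂ}
    (hz : IsPt z) {j : Fin c} {i1 : Fin (r j + 1)} (hyj : ∀ j' i, j' ≠ j → y ⟨j', i⟩ = 0)
    (hy1 : y ⟨j, i1⟩ = 1) (hneg : x.2 j < 0) {C : ℝ} (hC0 : 0 ≤ C) {ε : ℝ} (hε : 0 < ε) :
    ∃ R₀ : ℝ, ∀ t : ℂ, R₀ ≤ ‖t‖ → C * wgt r x v (z + t • y) ≤ ε := by
  classical
  set δ : ℝ := -(x.2 j) with hδ
  have hδ0 : 0 < δ := neg_pos.2 hneg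
  set P : ℝ := Real.exp (Real.pi * (x.1 v v).re) *
    ∏ j' ∈ Finset.univ.erase j, (∑ i, ‖z ⟨j', i⟩‖ ^ 2) ^ x.2 j' with hP
  have hP0 : 0 ≤ P := mul_nonneg (Real.exp_pos _).le
    (Finset.prod_nonneg fun j _ => (Real.rpow_pos_of_pos (nsq_pos hz j) _).le)
  set b : ℝ := C * P / (ε * (2 * δ)) with hb
  have hb0 : 0 ≤ b := by positivity
  set a : ℝ := ‖z ⟨j, i1⟩‖ with ha
  refine ⟨a + Real.exp b, fun t ht => ?_⟩
  change C * (Real.exp (Real.pi * (x.1 v v).re) *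
    ∏ j', (∑ i, ‖(z + t • y) ⟨j', i⟩‖ ^ 2) ^ x.2 j') ≤ ε
  have e1 : ∏ j', (∑ i, ‖(z + t • y) ⟨j', i⟩‖ ^ 2) ^ x.2 j' =
      (∑ i, ‖(z + t • y) ⟨j, i⟩‖ ^ 2) ^ x.2 j *
        ∏ j' ∈ Finset.univ.erase j, (∑ i, ‖z ⟨j', i⟩‖ ^ 2) ^ x.2 j' := by
    rw [← Finset.mul_prod_erase Finset.univ _ (Finset.mem_univ j)]
    congr 1
    refine Finset.prod_congr rfl fun j' hj' => ?_
    have hj'' : j' ≠ j := Finset.ne_of_mem_erase hj'
    have e2 : ∀ i, (z + t • y) ⟨j', i⟩ = z ⟨j', i⟩ := by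
      intro i
      change z ⟨j', i⟩ + t * y ⟨j', i⟩ = _
      rw [hyj j' i hj'', mul_zero, add_zero]
    simp only [e2]
  have e3 : Real.exp b ^ 2 ≤ ∑ i, ‖(z + t • y) ⟨j, i⟩‖ ^ 2 := by
    have e4 : ‖(z + t • y) ⟨j, i1⟩‖ ^ 2 ≤ ∑ i, ‖(z + t • y) ⟨j, i⟩‖ ^ 2 :=
      Finset.single_le_sum (f := fun i => ‖(z + t • y) ⟨j, i⟩‖ ^ 2) (fun _ _ => sq_nonneg _)
        (Finset.mem_univ i1)
    refine le_trans ?_ e4
    have e5 : Real.exp b ≤ ‖(z + t • y) ⟨j, i1⟩‖ := by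
      change Real.exp b ≤ ‖z ⟨j, i1⟩ + t * y ⟨j, i1⟩‖
      rw [hy1, mul_one]
      have e6 : ‖t‖ ≤ ‖z ⟨j, i1⟩ + t‖ + ‖z ⟨j, i1⟩‖ := by
        have e7 : t = (z ⟨j, i1⟩ + t) - z ⟨j, i1⟩ := by ring
        calc ‖t‖ = ‖(z ⟨j, i1⟩ + t) - z ⟨j, i1⟩‖ := by rw [← e7]
          _ ≤ _ := norm_sub_le _ _
      linarith
    exact pow_le_pow_left₀ (Real.exp_pos b).le e5 2
  have e4 : (∑ i, ‖(z + t • y) ⟨j, i⟩‖ ^ 2) ^ x.2 j ≤ Real.exp (-(2 * δ * b)) := by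
    have e5 : (Real.exp b ^ 2) ^ x.2 j = Real.exp (-(2 * δ * b)) := by
      rw [← Real.exp_nat_mul, ← Real.exp_mul]
      congr 1
      rw [hδ]
      push_cast
      ring
    rw [← e5]
    exact Real.rpow_le_rpow_of_nonpos (by positivity) e3 hneg.le
  have e5 : Real.exp (-(2 * δ * b)) * (C * P) ≤ ε := by
    rw [Real.exp_neg, inv_mul_le_iff₀ (Real.exp_pos _)]
    have h4 := Real.add_one_le_exp (2 * δ * b)
    have h5 : 2 * δ * b = C * P / ε := by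
      rw [hb]
      field_simp
    rw [h5] at h4 ⊢
    have h6 : C * P = (C * P / ε) * ε := by field_simp
    nlinarith [Real.exp_pos (C * P / ε)]
  rw [e1]
  have e6 : Real.exp (Real.pi * (x.1 v v).re) * ((∑ i, ‖(z + t • y) ⟨j, i⟩‖ ^ 2) ^ x.2 j *
        ∏ j' ∈ Finset.univ.erase j, (∑ i, ‖z ⟨j', i⟩‖ ^ 2) ^ x.2 j') =
      (∑ i, ‖(z + t • y) ⟨j, i⟩‖ ^ 2) ^ x.2 j * P := by
    rw [hP]
    ring
  rw [e6]
  calc C * ((∑ i, ‖(z + t • y) ⟨j, i⟩‖ ^ 2) ^ x.2 j * P)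
      ≤ C * (Real.exp (-(2 * δ * b)) * P) :=
        mul_le_mul_of_nonneg_left (mul_le_mul_of_nonneg_right e4 hP0) hC0
    _ = Real.exp (-(2 * δ * b)) * (C * P) := by ring
    _ ≤ ε := e5

/-! ### The main step -/

/-- a plurisubharmonic function on the covering does not decay over lines -/
theorem no_decay_line (hβ : ∀ i, IsCartier (D i) (β i) (κ i)) (hq : ∀ i, 1 ≤ q i)
    {χ : (Fin n → ℂ) → (Co r → ℂ) → (Fin N → ℂ) → ℝ} (hχ : IsCoverLogPsh q β χ)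
    {v w : Fin n → ℂ} {z u : Co r → ℂ} (hpt : ∀ t : ℂ, IsPt (z + t • u))
    (hdec : ∀ ε : ℝ, 0 < ε → ∃ R₀ : ℝ, ∀ (t : ℂ) (y : Fin N → ℂ),
      IsCoverPt q β (v + t • w) (z + t • u) y → R₀ ≤ ‖t‖ → χ (v + t • w) (z + t • u) y ≤ ε)
    {y : Fin N → ℂ} (hp : IsCoverPt q β v z y) : χ v z y = 0 := by
  have hβc : ∀ i, FQ.IsEffective (β i) (κ i) := fun i => eff_conv (hβ i).effective
  have h3 : Differentiable ℂ fun t : ℂ => ((v + t • w, z + t • u) :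
      (Fin n → ℂ) × (Co r → ℂ)) :=
    ((differentiable_const v).add (differentiable_id.smul_const w)).prodMk
      ((differentiable_const z).add (differentiable_id.smul_const u))
  have hF : ∀ i, Differentiable ℂ fun t : ℂ => eval (z + t • u) (β i (v + t • w)) := by
    intro i
    have h2 := FQ.holo_eval (hβc i).holo (hβc i).homog
    exact Differentiable.comp (g := fun p : (Fin n → ℂ) × (Co r → ℂ) => eval p.2 (β i p.1))
      (f := fun t : ℂ => ((v + t • w, z + t • u) : (Fin n → ℂ) × (Co r → ℂ))) h2 h3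
  have h1 := SC.no_decay_cover (N := N)
    (f := fun i t => eval (z + t • u) (β i (v + t • w))) hF hq
    (X := fun p => χ (v + p.1 • w) (z + p.1 • u) p.2) (fun p => hχ.nonneg _ _ _) ?_ ?_ ?_
    (p := (0, y)) ?_
  · change χ (v + (0 : ℂ) • w) (z + (0 : ℂ) • u) y = 0 at h1
    rw [zero_smul, zero_smul, add_zero, add_zero] at h1
    exact h1
  · have h2 : Continuous fun p : ℂ × (Fin N → ℂ) =>
        ((v + p.1 • w, z + p.1 • u, p.2) : (Fin n → ℂ) × (Co r → ℂ) × (Fin N → ℂ)) :=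
      (continuous_const.add (continuous_fst.smul continuous_const)).prodMk
        ((continuous_const.add (continuous_fst.smul continuous_const)).prodMk continuous_snd)
    exact hχ.usc.comp h2.continuousOn fun p hp => ⟨hpt p.1, hp⟩
  · intro τ y' ρ hρ hτ hy' hS ε hε
    refine hχ.mean (fun s => v + τ s • w) (fun s => z + τ s • u) y' ρ hρ ?_ ?_ hy' ?_ ε hε
    · exact fun s hs => analyticAt_const.add ((hτ s hs).smul analyticAt_const)
    · exact fun s hs => analyticAt_const.add ((hτ s hs).smul analyticAt_const)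
    · exact fun s hs => ⟨hpt _, hS s hs⟩
  · intro ε hε
    obtain ⟨R₀, hR₀⟩ := hdec ε hε
    exact ⟨R₀, fun p hp hle => hR₀ p.1 p.2 ⟨hpt _, hp⟩ hle⟩
  · intro i
    change y i ^ q i = eval (z + (0 : ℂ) • u) (β i (v + (0 : ℂ) • w))
    rw [zero_smul, zero_smul, add_zero, add_zero]
    exact hp.2 i

/-- **Classes on `X` whose pullbacks to `Y` contain closed positive currents are nef.** -/
theorem nef_of_cover_current (hΓ : IsIsometryGroup Γ) (hβ : ∀ i, IsCartier (D i) (β i) (κ i))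
    (hR : ∀ i, IsRoot (R i) (q i) (D i)) (hq : ∀ i, 1 ≤ q i) {x : RealClass n c}
    (hx : IsHermitian x.1) (h : HasCoverCurrent Γ R q β x) : IsNefClass x := by
  classical
  obtain ⟨E, h1, h2, ⟨v, z, y, hp, hE⟩, h0, h3, hpsh⟩ := h
  obtain ⟨C, hC⟩ := cover_bdd hΓ hβ hR hq h1 h2 h3
  have hC0 : 0 ≤ C := (h0 v z y).trans (hC v z y hp)
  have hχ : E v z y * wgt r x v z ≠ 0 := mul_ne_zero hE (wgt_pos hp.1 x v).ne'
  refine ⟨fun w => ?_, fun j => ?_⟩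
  · by_contra hneg
    push Not at hneg
    apply hχ
    refine no_decay_line hβ hq hpsh (w := w) (u := 0)
      (fun t => by rw [smul_zero, add_zero]; exact hp.1) (fun ε hε => ?_) hp
    obtain ⟨R₀, hR₀⟩ := decay_V hx (v := v) hp.1 hneg hC0 hε
    refine ⟨R₀, fun t y' hp' ht => ?_⟩
    rw [smul_zero, add_zero] at hp' ⊢
    refine le_trans ?_ (hR₀ t ht)
    exact mul_le_mul_of_nonneg_right (hC _ _ _ hp') (wgt_pos hp.1 x _).le
  · by_contra hneg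
    push Not at hneg
    apply hχ
    obtain ⟨u, i1, hpt, hyj, hy1⟩ := exists_dir hΓ hp.1 j
    refine no_decay_line hβ hq hpsh (w := 0) (u := u) hpt (fun ε hε => ?_) hp
    obtain ⟨R₀, hR₀⟩ := decay_F (v := v) hp.1 hyj hy1 hneg hC0 hε
    refine ⟨R₀, fun t y' hp' ht => ?_⟩
    rw [smul_zero, add_zero] at hp' ⊢
    refine le_trans ?_ (hR₀ t ht)
    exact mul_le_mul_of_nonneg_right (hC _ _ _ hp') (wgt_pos (hpt t) x _).le

end Pool.Agent.H896.IG
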