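import Mathlib.Analysis.Complex.JensenFormula
import Mathlib.Analysis.Complex.MeanValue

/-!
# Sub-mean value properties on holomorphic discs
-/

set_option autoImplicit false

namespace Pool.Agent.H896.SC

open Filter Topology Metric Real

/-- Jensen's inequality, compared with a majorant. -/
theorem jensen_le {R : ℝ} (hR : 0 < R) {f : ℂ → ℂ} (hf : AnalyticOnNhd ℂ f (closedBall 0 R))
    (h0 : f 0 ≠ 0) {G : ℂ → ℝ} (hG : CircleIntegrable G 0 R)
    (h : ∀ t ∈ sphere (0 : ℂ) R, f t ≠ 0 → Real.log ‖f t‖ ≤ G t) :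
    Real.log ‖f 0‖ ≤ circleAverage G 0 R := by
  classical
  have habs : |R| = R := abs_of_pos hR
  have hf' : AnalyticOnNhd ℂ f (closedBall 0 |R|) := by rwa [habs]
  have hcod : f ⁻¹' {0}ᶜ ∈ codiscreteWithin (sphere (0 : ℂ) |R|) := by
    refine codiscreteWithin_mono sphere_subset_closedBall
      (hf'.preimage_zero_mem_codiscreteWithin h0 (mem_closedBall_self (abs_nonneg R)) ?_)
    exact ⟨⟨0, mem_closedBall_self (abs_nonneg R)⟩, (convex_closedBall (0 : ℂ) |R|).isPreconnected⟩
  set g : ℂ → ℝ := fun t => if f t = 0 then G t else Real.log ‖f t‖ with hg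
  have hgf : g =ᶠ[codiscreteWithin (sphere (0 : ℂ) |R|)] fun t => Real.log ‖f t‖ := by
    filter_upwards [hcod] with t ht
    exact if_neg ht
  have hi : CircleIntegrable (fun t => Real.log ‖f t‖) 0 R :=
    (hf'.mono sphere_subset_closedBall).meromorphicOn.circleIntegrable_log_norm
  have hgi : CircleIntegrable g 0 R := hi.congr_codiscreteWithin hgf.symm
  have h1 : circleAverage g 0 R ≤ circleAverage G 0 R := by
    refine circleAverage_mono hgi hG fun t ht => ?_
    rw [habs] at ht
    by_cases hft : f t = 0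
    · rw [hg]
      simp only [if_pos hft, le_refl]
    · rw [hg]
      simp only [if_neg hft]
      exact h t ht hft
  refine le_trans ?_ h1
  rw [circleAverage_congr_codiscreteWithin hgf hR.ne', hf'.circleAverage_log_norm hR.ne' h0]
  refine le_add_of_nonneg_left (finsum_nonneg fun u => ?_)
  by_cases hu : u ∈ closedBall (0 : ℂ) |R|
  · refine mul_nonneg (mod_cast MeromorphicOn.AnalyticOnNhd.divisor_nonneg hf' u) ?_
    rw [zero_sub, norm_neg]
    rcases eq_or_ne u 0 with h2 | h2
    · rw [h2, norm_zero, inv_zero, mul_zero, Real.log_zero]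
    · refine Real.log_nonneg ?_
      rw [mem_closedBall_zero_iff, habs] at hu
      rw [← div_eq_mul_inv, one_le_div (norm_pos_iff.2 h2)]
      exact hu
  · rw [Function.locallyFinsuppWithin.apply_eq_zero_of_notMem _ hu]
    simp

/-- the logarithm of the norm of a holomorphic vector is subharmonic -/
theorem log_norm_mean {ι : Type*} [Fintype ι] {R : ℝ} (hR : 0 < R) {b : ι → ℂ → ℂ}
    (hb : ∀ i, AnalyticOnNhd ℂ (b i) (closedBall 0 R))
    (hne : ∀ t ∈ closedBall (0 : ℂ) R, 0 < ∑ i, ‖b i t‖ ^ 2) :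
    Real.log (∑ i, ‖b i 0‖ ^ 2) ≤ circleAverage (fun t => Real.log (∑ i, ‖b i t‖ ^ 2)) 0 R := by
  obtain ⟨A, hA⟩ : ∃ A, A = ∑ i, ‖b i 0‖ ^ 2 := ⟨_, rfl⟩
  have hA0 : 0 < A := by
    rw [hA]
    exact hne 0 (mem_closedBall_self hR.le)
  set f : ℂ → ℂ := fun t => ∑ i, (starRingEnd ℂ) (b i 0) * b i t with hf
  have hfan : AnalyticOnNhd ℂ f (closedBall 0 R) := by
    have h1 := Finset.analyticOnNhd_fun_sum (𝕜 := ℂ) (f := fun i t =>
      (starRingEnd ℂ) (b i 0) * b i t) (s := closedBall 0 R) Finset.univ fun i _ =>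
      analyticOnNhd_const.mul (hb i)
    exact h1
  have hf0 : f 0 = (A : ℂ) := by
    rw [hf, hA]
    push_cast
    refine Finset.sum_congr rfl fun i _ => ?_
    rw [mul_comm, Complex.mul_conj, Complex.normSq_eq_norm_sq]
    push_cast
    rfl
  have hcont : ContinuousOn (fun t => Real.log (∑ i, ‖b i t‖ ^ 2)) (sphere 0 |R|) := by
    rw [abs_of_pos hR]
    refine ContinuousOn.log ?_ fun t ht => (hne t (sphere_subset_closedBall ht)).ne'
    exact continuousOn_finsetSum _ fun i _ =>
      (((hb i).continuousOn.mono sphere_subset_closedBall).norm).pow 2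
  have hi : CircleIntegrable (fun t => Real.log (∑ i, ‖b i t‖ ^ 2)) 0 R :=
    hcont.circleIntegrable'
  have hi2 : CircleIntegrable (fun t => (1 / 2 : ℝ) • Real.log A +
      (1 / 2 : ℝ) • Real.log (∑ i, ‖b i t‖ ^ 2)) 0 R :=
    (circleIntegrable_const _ _ _).add (hcont.const_smul (1 / 2 : ℝ)).circleIntegrable'
  have hi3 : CircleIntegrable (fun t => (1 / 2 : ℝ) • Real.log (∑ i, ‖b i t‖ ^ 2)) 0 R :=
    (hcont.const_smul (1 / 2 : ℝ)).circleIntegrable'
  have h1 := jensen_le hR hfan (by rw [hf0]; exact Complex.ofReal_ne_zero.2 hA0.ne') hi2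
    fun t ht hft => by
      have hN := hne t (sphere_subset_closedBall ht)
      have h2 : ‖f t‖ ^ 2 ≤ A * ∑ i, ‖b i t‖ ^ 2 := by
        have h3 : ‖f t‖ ≤ ∑ i, ‖b i 0‖ * ‖b i t‖ := by
          rw [hf]
          refine (norm_sum_le _ _).trans (le_of_eq ?_)
          refine Finset.sum_congr rfl fun i _ => ?_
          rw [norm_mul, RCLike.norm_conj]
        have h4 := Finset.sum_mul_sq_le_sq_mul_sq Finset.univ (fun i => ‖b i 0‖)
          (fun i => ‖b i t‖)
        rw [hA]
        calc ‖f t‖ ^ 2 ≤ (∑ i, ‖b i 0‖ * ‖b i t‖) ^ 2 :=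
              pow_le_pow_left₀ (norm_nonneg _) h3 2
          _ ≤ _ := h4
      have h5 : 0 < ‖f t‖ := norm_pos_iff.2 hft
      have h6 := Real.log_le_log (by positivity) h2
      rw [Real.log_pow, Real.log_mul hA0.ne' hN.ne'] at h6
      push_cast at h6
      simp only [smul_eq_mul]
      linarith
  rw [circleAverage_fun_add (circleIntegrable_const _ _ _) hi3, circleAverage_const,
    circleAverage_fun_smul, hf0, Complex.norm_real, Real.norm_eq_abs, abs_of_pos hA0,
    smul_eq_mul, smul_eq_mul] at h1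
  rw [← hA]
  linarith

/-- the real part of a holomorphic function -/
theorem re_mean {R : ℝ} (hR : 0 < R) {f : ℂ → ℂ} (hf : AnalyticOnNhd ℂ f (closedBall 0 R)) :
    circleAverage (fun t => (f t).re) 0 R = (f 0).re := by
  have h1 : DiffContOnCl ℂ f (ball 0 |R|) := by
    rw [abs_of_pos hR]
    refine ⟨hf.differentiableOn.mono ball_subset_closedBall, ?_⟩
    rw [closure_ball (0 : ℂ) hR.ne']
    exact hf.continuousOn
  have h2 := h1.circleAverage
  have h3 : CircleIntegrable f 0 R := by
    have h4 : ContinuousOn f (sphere 0 |R|) := by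
      rw [abs_of_pos hR]
      exact hf.continuousOn.mono sphere_subset_closedBall
    exact h4.circleIntegrable'
  have h4 := Complex.reCLM.circleAverage_comp_comm h3
  rw [h2] at h4
  exact h4

end Pool.Agent.H896.SC
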