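import Pool.Agent.H896.SC.Stmt
import Pool.Agent.H896.GN.Inv
import Mathlib.Analysis.Matrix.Spectrum

/-!
# Kähler metrics of positive total scalar curvature
-/

set_option autoImplicit false

namespace Pool.Agent.H896.IG

open MvPolynomial Pool.Agent.T2H08.FB Pool.Agent.W594.SYZ2 Pool.Agent.W594.SYZ2.TQ
  Pool.Agent.TH735.AQ
open Pool.Agent.T2H08 Pool.Agent.H896.IQ

variable {n c : ℕ} {r : Fin c → ℕ} {Γ : Subgroup (Trans n r)}

/-- the standard form -/
noncomputable def std (v w : Fin n → ℂ) : ℂ := ∑ i, v i * (starRingEnd ℂ) (w i)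

theorem std_herm : IsHermitian (std : (Fin n → ℂ) → (Fin n → ℂ) → ℂ) := by
  refine ⟨fun u v w => ?_, fun a v w => ?_, fun v w => ?_⟩
  · unfold std
    rw [← Finset.sum_add_distrib]
    exact Finset.sum_congr rfl fun i _ => by rw [Pi.add_apply, add_mul]
  · unfold std
    rw [Finset.mul_sum]
    exact Finset.sum_congr rfl fun i _ => by rw [Pi.smul_apply, smul_eq_mul, mul_assoc]
  · unfold std
    rw [map_sum]
    exact Finset.sum_congr rfl fun i _ => by rw [map_mul, Complex.conj_conj, mul_comm]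

theorem std_diag (v : Fin n → ℂ) : (std v v).re = ∑ i, ‖v i‖ ^ 2 := by
  unfold std
  rw [Complex.re_sum]
  exact Finset.sum_congr rfl fun i _ => by
    rw [Complex.mul_conj, Complex.ofReal_re, Complex.normSq_eq_norm_sq]

theorem herm_ext {H : (Fin n → ℂ) → (Fin n → ℂ) → ℂ} (hH : IsHermitian H)
    (T : (Fin n → ℂ) →ₗ[ℂ] (Fin n → ℂ)) (h : ∀ v, (H (T v) (T v)).re = (H v v).re)
    (v w : Fin n → ℂ) : H (T v) (T w) = H v w := by
  have key : ∀ v w : Fin n → ℂ, (H (T v) (T w)).re = (H v w).re := by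
    intro v w
    have h1 := h (v + w)
    rw [map_add, h_diag_add hH, h_diag_add hH (x := v)] at h1
    have h2 := h v
    have h3 := h w
    linarith
  apply Complex.ext
  · exact key v w
  · have h1 := key (Complex.I • v) w
    rw [map_smul, hH.smul_left, hH.smul_left] at h1
    simp at h1
    linarith

theorem onV_sub0 (g : Trans n r) (v : Fin n → ℂ) : onV g v - onV g 0 = g.1.linear v := by
  have h1 : onV g v = g.1.linear v + g.1 0 := TQ.act g.1 v
  have h2 : onV g 0 = g.1 0 := rfl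
  rw [h1, h2, add_sub_cancel_right]

theorem std_inv (hΓ : IsIsometryGroup Γ) {g : Trans n r} (hg : g ∈ Γ) (v w : Fin n → ℂ) :
    std (g.1.linear v) (g.1.linear w) = std v w := by
  refine herm_ext std_herm (g.1.linear : (Fin n → ℂ) →ₗ[ℂ] (Fin n → ℂ)) (fun v => ?_) v w
  have h1 := hΓ.isoV g hg v 0
  rw [std_diag, std_diag]
  have h2 : ∀ i, (g.1.linear v) i = onV g v i - onV g 0 i := fun i => by
    rw [← onV_sub0]
    rfl
  change ∑ i, ‖(g.1.linear v) i‖ ^ 2 = _
  simp only [h2]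
  rw [h1]
  simp

theorem herm_sum {G : (Fin n → ℂ) → (Fin n → ℂ) → ℂ} (hG : IsHermitian G) (s : Finset (Fin n))
    (f : Fin n → Fin n → ℂ) (w : Fin n → ℂ) : G (∑ k ∈ s, f k) w = ∑ k ∈ s, G (f k) w := by
  classical
  induction s using Finset.induction_on with
  | empty =>
    rw [Finset.sum_empty, Finset.sum_empty]
    have h1 := hG.smul_left 0 0 w
    rwa [zero_smul, zero_mul] at h1
  | insert i s hi ih => rw [Finset.sum_insert hi, hG.add_left, ih, Finset.sum_insert hi]

theorem herm_smul_right {G : (Fin n → ℂ) → (Fin n → ℂ) → ℂ} (hG : IsHermitian G) (a : ℂ)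
    (x y : Fin n → ℂ) : G x (a • y) = (starRingEnd ℂ) a * G x y := by
  rw [hG.symm (a • y) x, hG.smul_left, map_mul, ← hG.symm y x]

theorem herm_sum' {G : (Fin n → ℂ) → (Fin n → ℂ) → ℂ} (hG : IsHermitian G) (s : Finset (Fin n))
    (f : Fin n → Fin n → ℂ) (w : Fin n → ℂ) : G w (∑ k ∈ s, f k) = ∑ k ∈ s, G w (f k) := by
  rw [hG.symm, herm_sum hG, map_sum]
  exact Finset.sum_congr rfl fun k _ => (hG.symm _ _).symm

/-- diagonal expansion -/
theorem diag_expand {G : (Fin n → ℂ) → (Fin n → ℂ) → ℂ} (hG : IsHermitian G)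
    (u : Module.Basis (Fin n) ℂ (Fin n → ℂ)) {g : Fin n → ℝ}
    (h : ∀ k l, G (u k) (u l) = if k = l then (g k : ℂ) else 0) (v : Fin n → ℂ) :
    (G v v).re = ∑ k, g k * ‖u.repr v k‖ ^ 2 := by
  have hsum := herm_sum hG
  have hr := herm_smul_right hG
  have hsum' := herm_sum' hG
  have hv : v = ∑ k, u.repr v k • u k := (u.sum_repr v).symm
  conv_lhs => rw [hv]
  rw [hsum, Complex.re_sum]
  refine Finset.sum_congr rfl fun k _ => ?_
  rw [hsum']
  rw [Finset.sum_eq_single k]
  · rw [hG.smul_left, hr, h, if_pos rfl]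
    have h1 : u.repr v k * ((starRingEnd ℂ) (u.repr v k) * (g k : ℂ)) =
        ((g k * ‖u.repr v k‖ ^ 2 : ℝ) : ℂ) := by
      rw [← mul_assoc, Complex.mul_conj, Complex.normSq_eq_norm_sq]
      push_cast
      ring
    rw [h1, Complex.ofReal_re]
  · intro l _ hl
    rw [hG.smul_left, hr, h, if_neg (Ne.symm hl), mul_zero, mul_zero]
  · intro h1
    exact absurd (Finset.mem_univ k) h1

/-- the spectral theorem -/
theorem exists_eigen {H : (Fin n → ℂ) → (Fin n → ℂ) → ℂ} (hH : IsHermitian H) :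
    ∃ (u : Module.Basis (Fin n) ℂ (Fin n → ℂ)) (l : Fin n → ℝ),
      (∀ k m, std (u k) (u m) = if k = m then 1 else 0) ∧
      ∀ k m, H (u k) (u m) = if k = m then (l k : ℂ) else 0 := by
  classical
  let S : Matrix (Fin n) (Fin n) ℂ := fun i j => H (Pi.single j 1) (Pi.single i 1)
  have hS : S.IsHermitian := by
    refine Matrix.IsHermitian.ext fun i j => ?_
    change star (H (Pi.single i 1) (Pi.single j 1)) = H (Pi.single j 1) (Pi.single i 1)
    exact (hH.symm _ _).symm
  have hHS : ∀ v w, H v w = std (S.mulVec v) w := by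
    intro v w
    have hsum := herm_sum hH
    have hr := herm_smul_right hH
    have hsum' := herm_sum' hH
    have hv : v = ∑ j, v j • (Pi.single j (1 : ℂ) : Fin n → ℂ) := pi_eq_sum_univ' v
    have hw : w = ∑ i, w i • (Pi.single i (1 : ℂ) : Fin n → ℂ) := pi_eq_sum_univ' w
    conv_lhs => rw [hv, hw]
    rw [hsum']
    unfold std Matrix.mulVec dotProduct
    refine Finset.sum_congr rfl fun i _ => ?_
    rw [hr, hsum, mul_comm]
    congr 1
    refine Finset.sum_congr rfl fun j _ => ?_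
    rw [hH.smul_left, mul_comm]
  have hstd : ∀ x y : EuclideanSpace ℂ (Fin n),
      std (WithLp.ofLp x) (WithLp.ofLp y) = inner ℂ y x := by
    intro x y
    rw [EuclideanSpace.inner_eq_star_dotProduct]
    unfold std dotProduct
    exact Finset.sum_congr rfl fun i _ => rfl
  have hu : ∀ k, (hS.eigenvectorBasis.toBasis.map (WithLp.linearEquiv 2 ℂ (Fin n → ℂ))) k =
      WithLp.ofLp (hS.eigenvectorBasis k) := by
    intro k
    rw [Module.Basis.map_apply, OrthonormalBasis.coe_toBasis]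
    rfl
  have hon : ∀ k m, std (WithLp.ofLp (hS.eigenvectorBasis k)) (WithLp.ofLp (hS.eigenvectorBasis m)) =
      if k = m then 1 else 0 := by
    intro k m
    rw [hstd, orthonormal_iff_ite.1 hS.eigenvectorBasis.orthonormal m k]
    by_cases hkm : k = m
    · rw [if_pos hkm, if_pos hkm.symm]
    · rw [if_neg hkm, if_neg (Ne.symm hkm)]
  refine ⟨hS.eigenvectorBasis.toBasis.map (WithLp.linearEquiv 2 ℂ (Fin n → ℂ)), hS.eigenvalues,
    fun k m => ?_, fun k m => ?_⟩
  · rw [hu, hu, hon]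
  · rw [hu, hu, hHS]
    have h1 := hS.mulVec_eigenvectorBasis k
    rw [h1]
    have h2 : (hS.eigenvalues k • WithLp.ofLp (hS.eigenvectorBasis k) : Fin n → ℂ) =
        (hS.eigenvalues k : ℂ) • WithLp.ofLp (hS.eigenvectorBasis k) := by
      funext i
      simp
    rw [h2, std_herm.smul_left, hon]
    by_cases hkm : k = m
    · rw [if_pos hkm, if_pos hkm, mul_one]
    · rw [if_neg hkm, if_neg hkm, mul_zero]

/-- **A class which is not nef has negative trace for a suitable Kähler metric.** -/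
theorem positive_scalar (hΓ : IsIsometryGroup Γ) {x : RealClass n c} (hx : IsHermitian x.1)
    (hinv : ∀ g ∈ Γ, ∀ v w, x.1 (g.1.linear v) (g.1.linear w) = x.1 v w)
    (hper : ∀ g ∈ Γ, ∀ π, Permutes g π → ∀ j, x.2 (π j) = x.2 j) (hnef : ¬ IsNefClass x) :
    HasPositiveTotalScalarCurvature Γ x := by
  classical
  obtain ⟨u, l, hu1, hu2⟩ := exists_eigen hx
  set val : Fin n ⊕ Fin c → ℝ := Sum.elim l x.2 with hval
  set wt : Fin n ⊕ Fin c → ℝ := Sum.elim (fun _ => 1) (fun j => (r j : ℝ)) with hwt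
  have hwt1 : ∀ s, 1 ≤ wt s := by
    rintro (k | j)
    · exact le_refl _
    · have := hΓ.pos j
      change (1 : ℝ) ≤ (r j : ℝ)
      exact_mod_cast this
  obtain ⟨s1, hs1⟩ : ∃ s, val s < 0 := by
    by_contra hcon
    push Not at hcon
    apply hnef
    refine ⟨fun v => ?_, fun j => hcon (Sum.inr j)⟩
    rw [diag_expand hx u hu2 v]
    exact Finset.sum_nonneg fun k _ => mul_nonneg (hcon (Sum.inl k)) (sq_nonneg _)
  have : Nonempty (Fin n ⊕ Fin c) := ⟨s1⟩
  obtain ⟨s0, hs0⟩ := Finite.exists_min val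
  have hneg : val s0 < 0 := (hs0 s1).trans_lt hs1
  obtain ⟨W, hW⟩ : ∃ W, W = ∑ s, wt s := ⟨_, rfl⟩
  have hW0 : 0 ≤ W := by
    rw [hW]
    exact Finset.sum_nonneg fun s _ => zero_le_one.trans (hwt1 s)
  set ε : ℝ := -val s0 / (W + 1) with hε
  have hε0 : 0 < ε := div_pos (neg_pos.2 hneg) (by linarith)
  set κ : ℝ := -val s0 + ε with hκ
  have hκ0 : 0 < κ := by linarith
  have hpos : ∀ s, ε ≤ κ + val s := fun s => by
    have := hs0 s
    linarith
  have hpos' : ∀ s, 0 < κ + val s := fun s => hε0.trans_le (hpos s)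
  -- the metric
  set A : (Fin n → ℂ) → (Fin n → ℂ) → ℂ := fun v w => κ * std v w + x.1 v w with hA
  have hAh : IsHermitian A := by
    refine ⟨fun u v w => ?_, fun a v w => ?_, fun v w => ?_⟩
    · rw [hA]
      simp only [std_herm.add_left, hx.add_left]
      ring
    · rw [hA]
      simp only [std_herm.smul_left, hx.smul_left]
      ring
    · rw [hA]
      simp only [map_add, map_mul, Complex.conj_ofReal, ← std_herm.symm, ← hx.symm]
  have hAu : ∀ k m, A (u k) (u m) = if k = m then ((κ + l k : ℝ) : ℂ) else 0 := by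
    intro k m
    rw [hA]
    simp only [hu1, hu2]
    by_cases hkm : k = m
    · rw [if_pos hkm, if_pos hkm, if_pos hkm]
      push_cast
      ring
    · rw [if_neg hkm, if_neg hkm, if_neg hkm]
      ring
  have hs : ∀ k, 0 < κ + l k := fun k => hpos' (Sum.inl k)
  have hsq : ∀ k, (((√(κ + l k))⁻¹ : ℝ) : ℂ) ≠ 0 := fun k =>
    Complex.ofReal_ne_zero.2 (inv_ne_zero (Real.sqrt_pos.2 (hs k)).ne')
  set b : Module.Basis (Fin n) ℂ (Fin n → ℂ) := u.isUnitSMul fun k => (hsq k).isUnit with hb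
  have hbk : ∀ k, b k = (((√(κ + l k))⁻¹ : ℝ) : ℂ) • u k := fun k =>
    Module.Basis.isUnitSMul_apply _ k
  have hconj : ∀ k, (starRingEnd ℂ) (((√(κ + l k))⁻¹ : ℝ) : ℂ) = (((√(κ + l k))⁻¹ : ℝ) : ℂ) :=
    fun k => Complex.conj_ofReal _
  have hsq2 : ∀ k, (√(κ + l k))⁻¹ * (√(κ + l k))⁻¹ = (κ + l k)⁻¹ := fun k => by
    rw [← mul_inv, Real.mul_self_sqrt (hs k).le]
  refine ⟨A, fun j => κ + x.2 j, b, hAh, fun v hv => ?_, fun j => hpos' (Sum.inr j),
    fun g hg v w => ?_, fun g hg π hπ j => congrArg (fun s => κ + s) (hper g hg π hπ j),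
    fun i k => ?_, ?_⟩
  · rw [diag_expand hAh u hAu v]
    obtain ⟨k, hk⟩ : ∃ k, u.repr v k ≠ 0 := by
      by_contra hcon
      push Not at hcon
      apply hv
      rw [← u.sum_repr v]
      exact Finset.sum_eq_zero fun k _ => by rw [hcon k, zero_smul]
    exact Finset.sum_pos' (fun k _ => mul_nonneg (hs k).le (sq_nonneg _))
      ⟨k, Finset.mem_univ k, mul_pos (hs k) (by positivity)⟩
  · rw [onV_sub0, onV_sub0, hA]
    simp only [std_inv hΓ hg, hinv g hg]
  · rw [hbk, hbk, hAh.smul_left, herm_smul_right hAh, hAu, hconj]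
    by_cases hik : i = k
    · subst hik
      rw [if_pos rfl, if_pos rfl, ← mul_assoc, ← Complex.ofReal_mul, ← Complex.ofReal_mul, hsq2,
        inv_mul_cancel₀ (hs i).ne', Complex.ofReal_one]
    · rw [if_neg hik, if_neg hik, mul_zero, mul_zero]
  · have h1 : ∀ k, (x.1 (b k) (b k)).re = wt (Sum.inl k) * (val (Sum.inl k) /
        (κ + val (Sum.inl k))) := by
      intro k
      rw [hbk, hx.smul_left, herm_smul_right hx, hu2, if_pos rfl, hconj, ← mul_assoc,
        ← Complex.ofReal_mul, ← Complex.ofReal_mul, hsq2, Complex.ofReal_re]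
      change (κ + l k)⁻¹ * l k = 1 * (l k / (κ + l k))
      rw [one_mul, div_eq_inv_mul]
    have h2 : ∀ j, (r j : ℝ) * x.2 j / (κ + x.2 j) = wt (Sum.inr j) * (val (Sum.inr j) /
        (κ + val (Sum.inr j))) := fun j => by
      change (r j : ℝ) * x.2 j / (κ + x.2 j) = (r j : ℝ) * (x.2 j / (κ + x.2 j))
      rw [mul_div_assoc]
    have h3 : ∑ k, (x.1 (b k) (b k)).re + ∑ j, (r j : ℝ) * x.2 j / (κ + x.2 j) =
        ∑ s, wt s * (val s / (κ + val s)) := by
      rw [Fintype.sum_sum_type]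
      congr 1
      · exact Finset.sum_congr rfl fun k _ => h1 k
      · exact Finset.sum_congr rfl fun j _ => h2 j
    rw [h3]
    have h4 : ∀ s, val s / (κ + val s) ≤ 1 := fun s => by
      rw [div_le_one (hpos' s)]
      linarith
    have h5 : val s0 / (κ + val s0) = -(W + 1) := by
      have e1 : κ + val s0 = ε := by rw [hκ]; ring
      rw [e1, hε]
      have : W + 1 ≠ 0 := by linarith
      have : val s0 ≠ 0 := hneg.ne
      field_simp
    rw [← Finset.add_sum_erase Finset.univ _ (Finset.mem_univ s0), h5]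
    have h6 : ∑ s ∈ Finset.univ.erase s0, wt s * (val s / (κ + val s)) ≤ W - wt s0 := by
      have e1 : W = wt s0 + ∑ s ∈ Finset.univ.erase s0, wt s := by
        rw [hW, Finset.add_sum_erase Finset.univ _ (Finset.mem_univ s0)]
      rw [e1, add_sub_cancel_left]
      refine Finset.sum_le_sum fun s _ => ?_
      have e2 := mul_le_mul_of_nonneg_left (h4 s) (zero_le_one.trans (hwt1 s))
      linarith
    have h7 : wt s0 * -(W + 1) ≤ -(W + 1) := by
      have := hwt1 s0
      nlinarith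
    have := hwt1 s0
    linarith

end Pool.Agent.H896.IG
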