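import Pool.Agent.H896.SC.Psh
import Pool.Agent.H896.SC.Tr
import Pool.Agent.H896.GN.Cov

/-!
# Kodaira dimension, singular metrics and total scalar curvature of coverings
-/

set_option autoImplicit false

namespace Pool.Agent.H896.IG

open MvPolynomial Pool.Agent.T2H08.FB Pool.Agent.W594.SYZ2 Pool.Agent.W594.SYZ2.TQ
  Pool.Agent.TH735.AQ
open Pool.Agent.T2H08 Pool.Agent.H896.IQ

variable {n c : ℕ} {r : Fin c → ℕ} {Γ : Subgroup (Trans n r)}
  {K : LineBundle Γ} {N : ℕ} {D R : Fin N → LineBundle Γ}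
  {HK : (Fin n → ℂ) → (Fin n → ℂ) → ℂ} {HD : Fin N → (Fin n → ℂ) → (Fin n → ℂ) → ℂ}
  {ρ : (Fin n → ℂ) → ℂ} {σ : MvPolynomial (Co r) ℂ} {l : Fin c → ℕ} {m : ℕ}
  {β : Fin N → (Fin n → ℂ) → MvPolynomial (Co r) ℂ} {κ : Fin N → Fin c → ℕ}
  {q : Fin N → ℕ}

theorem prod_q_pos (hq : ∀ i, 1 ≤ q i) : 1 ≤ ∏ i, q i := Finset.one_le_prod' fun i _ => hq i

theorem coef_eq (hq : ∀ i, 1 ≤ q i) (m M : ℕ) (i : Fin N) :
    ((M * (m * ((q i - 1) * ((∏ k, q k) / q i))) : ℕ) : ℝ) =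
      (M * m * (∏ k, q k) : ℕ) * (1 - 1 / (q i : ℝ)) := by
  obtain ⟨Q', hQ'⟩ : q i ∣ ∏ k, q k := Finset.dvd_prod_of_mem q (Finset.mem_univ i)
  have hqi : (0 : ℝ) < q i := by exact_mod_cast hq i
  rw [hQ', Nat.mul_div_cancel_left Q' (hq i)]
  push_cast [Nat.cast_sub (hq i)]
  field_simp

theorem nef_canonical_iff (hm : 1 ≤ m) (hq : ∀ i, 1 ≤ q i) {M : ℕ} (hM : 1 ≤ M) :
    (coverCanonical K D m q M).IsNef (Q47.MM.cls HK HD (M * ∏ i, q i : ℕ)
      fun i => ((M * (m * ((q i - 1) * ((∏ k, q k) / q i))) : ℕ) : ℝ)) ↔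
    IsNefClass (realClass K HK D HD (1 / m) fun i => 1 - 1 / (q i : ℝ)) := by
  have hm0 : (0 : ℝ) < m := by exact_mod_cast hm
  have hC : (0 : ℝ) < (M * m * (∏ k, q k) : ℕ) := by
    have := Nat.mul_pos (Nat.mul_pos hM hm) (prod_q_pos hq)
    exact_mod_cast this
  have h1 : ∀ v w, Q47.MM.cls HK HD (M * ∏ i, q i : ℕ)
      (fun i => ((M * (m * ((q i - 1) * ((∏ k, q k) / q i))) : ℕ) : ℝ)) v w =
      ((M * m * (∏ k, q k) : ℕ) : ℝ) *
        (realClass K HK D HD (1 / m) fun i => 1 - 1 / (q i : ℝ)).1 v w := by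
    intro v w
    have hmc : (m : ℂ) ≠ 0 := by
      have : m ≠ 0 := by omega
      exact_mod_cast this
    simp only [Q47.MM.cls, realClass, coef_eq hq, mul_add, Finset.mul_sum]
    congr 1
    · push_cast
      field_simp
    · refine Finset.sum_congr rfl fun i _ => ?_
      push_cast
      ring
  have h2 : ∀ j, (((coverCanonical K D m q M).deg j : ℤ) : ℝ) = (M * m * (∏ k, q k) : ℕ) *
      (realClass K HK D HD (1 / m) fun i => 1 - 1 / (q i : ℝ)).2 j := by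
    intro j
    change (((((M * ∏ i, q i : ℕ) : ℤ) * K.deg j + ∑ i,
      ((M * (m * ((q i - 1) * ((∏ k, q k) / q i))) : ℕ) : ℤ) * (D i).deg j) : ℤ) : ℝ) =
      (M * m * (∏ k, q k) : ℕ) * (1 / m * K.deg j + ∑ i, (1 - 1 / (q i : ℝ)) * (D i).deg j)
    rw [Int.cast_add, Int.cast_mul, Int.cast_sum, Int.cast_natCast, mul_add, Finset.mul_sum]
    congr 1
    · push_cast
      field_simp
    · refine Finset.sum_congr rfl fun i _ => ?_
      rw [Int.cast_mul, Int.cast_natCast, coef_eq hq]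
      ring
  constructor
  · rintro ⟨h3, h4⟩
    refine ⟨fun v => ?_, fun j => ?_⟩
    · have h5 := h3 v
      rw [h1, Complex.re_ofReal_mul] at h5
      exact nonneg_of_mul_nonneg_right h5 hC
    · have h5 : (0 : ℝ) ≤ ((coverCanonical K D m q M).deg j : ℤ) := by exact_mod_cast h4 j
      rw [h2] at h5
      exact nonneg_of_mul_nonneg_right h5 hC
  · rintro ⟨h3, h4⟩
    refine ⟨fun v => ?_, fun j => ?_⟩
    · rw [h1, Complex.re_ofReal_mul]
      exact mul_nonneg hC.le (h3 v)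
    · have h5 : (0 : ℝ) ≤ ((coverCanonical K D m q M).deg j : ℤ) := by
        rw [h2]
        exact mul_nonneg hC.le (h4 j)
      exact_mod_cast h5

theorem nef_of_form (hΓ : IsIsometryGroup Γ) (hm : 1 ≤ m) (hHK : K.IsChernForm HK)
    (hβ : ∀ i, IsCartier (D i) (β i) (κ i)) (hHD : ∀ i, (D i).IsChernForm (HD i))
    (hR : ∀ i, IsRoot (R i) (q i) (D i)) (hq : ∀ i, 1 ≤ q i)
    (h : HasPluricanonicalForm K D R m q β) :
    IsNefClass (realClass K HK D HD (1 / m) fun i => 1 - 1 / (q i : ℝ)) := by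
  obtain ⟨M, hM, S, s, hs, v, z, y, hp, h0⟩ := h
  rw [← nef_canonical_iff hm hq hM]
  exact nef_of_cover hΓ hβ hR hq (chern_adj hHK hHD _ _) hs hp h0

theorem cover_canonical_semiample (hΓ : IsIsometryGroup Γ) (hρ : IsRamification Γ ρ σ l) (hm : 1 ≤ m)
    (hK : IsLogPluricanonical K m ρ σ l (fun _ => 1) (fun _ => 0)) (hHK : K.IsChernForm HK)
    (hβ : ∀ i, IsCartier (D i) (β i) (κ i)) (hHD : ∀ i, (D i).IsChernForm (HD i))
    (hq : ∀ i, 2 ≤ q i) (hklt : IsKltReal ρ σ (fun i => 1 - 1 / (q i : ℝ)) β)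
    (hn : IsNefClass (realClass K HK D HD (1 / m) fun i => 1 - 1 / (q i : ℝ))) :
    IsCoverCanonicalSemiample K D R m q β := by
  have hq1 : ∀ i, 1 ≤ q i := fun i => (Nat.le_succ 1).trans (hq i)
  have hm0 : (0 : ℝ) < m := by exact_mod_cast hm
  have hdeg : ∀ j, (l j : ℝ) + (r j + 1) ≤ ∑ i, (1 - 1 / (q i : ℝ)) * κ i j := by
    intro j
    have h1 := hn.2 j
    have h2 := hK.deg j
    change 0 ≤ 1 / (m : ℝ) * K.deg j + ∑ i, (1 - 1 / (q i : ℝ)) * (D i).deg j at h1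
    have h3 : (K.deg j : ℝ) = -(m * (l j + (r j + 1))) := by
      have h4 : K.deg j = -((m : ℤ) * (l j + (r j + 1))) := by
        push_cast at h2
        linarith
      rw [h4]
      push_cast
      ring
    have h5 : ∑ i, (1 - 1 / (q i : ℝ)) * ((D i).deg j : ℝ) = ∑ i, (1 - 1 / (q i : ℝ)) * κ i j :=
      Finset.sum_congr rfl fun i _ => by rw [(hβ i).deg]; push_cast; rfl
    rw [h3, h5] at h1
    have h6 : 1 / (m : ℝ) * -(m * (l j + (r j + 1))) = -((l j : ℝ) + (r j + 1)) := by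
      field_simp
    rw [h6] at h1
    linarith
  have hb : ∀ i, 1 ≤ 1 * (m * ((q i - 1) * ((∏ k, q k) / q i))) := fun i => by
    have h1 : 1 ≤ (∏ k, q k) / q i :=
      Nat.div_pos (Nat.le_of_dvd (prod_q_pos hq1) (Finset.dvd_prod_of_mem q (Finset.mem_univ i)))
        (hq1 i)
    have h2 : 1 ≤ q i - 1 := by have := hq i; omega
    rw [one_mul]
    exact Nat.mul_pos hm (Nat.mul_pos h2 h1)
  have hsemi : (coverCanonical K D m q 1).IsSemiample :=
    semiample_of_rigid hΓ hρ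
      (IR.eff_prod (fun i => eff_conv (hβ i).effective)
        (fun i => 1 * (m * ((q i - 1) * ((∏ k, q k) / q i)))) Finset.univ)
      (plu_adj hK hβ _ _)
      (rigid_of_klt hρ (fun i => (hβ i).effective) hklt hdeg hb)
      (chern_adj hHK hHD _ _) ((nef_canonical_iff hm hq1 le_rfl).2 hn)
  obtain ⟨M, hM, h⟩ := hsemi
  refine ⟨M, hM, fun v z y hp => ?_⟩
  obtain ⟨s, hs, hs0⟩ := h v z hp.1
  refine ⟨{0}, fun _ => s, ⟨fun a _ => hs.holo, fun a ha μ v z => ?_, fun a ha g hg v z => ?_⟩, ?_⟩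
  · rw [Finset.mem_singleton.1 ha, hs.homog]
    simp only [Pi.zero_apply, pow_zero, Finset.prod_const_one, one_mul]
    congr 1
    refine Finset.prod_congr rfl fun j _ => ?_
    congr 1
    change (M : ℤ) * (((1 * ∏ i, q i : ℕ) : ℤ) * K.deg j + ∑ i,
      ((1 * (m * ((q i - 1) * ((∏ k, q k) / q i))) : ℕ) : ℤ) * (D i).deg j) =
      ((1 : ℕ) : ℤ) * (((M * ∏ i, q i : ℕ) : ℤ) * K.deg j + ∑ i,
      ((M * (m * ((q i - 1) * ((∏ k, q k) / q i))) : ℕ) : ℤ) * (D i).deg j)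
    rw [mul_add, Finset.mul_sum, Nat.cast_one (R := ℤ)]
    have e1 : ((1 * ∏ i, q i : ℕ) : ℤ) = ((∏ i, q i : ℕ) : ℤ) := by rw [one_mul]
    have e2 : ((M * ∏ i, q i : ℕ) : ℤ) = (M : ℤ) * ((∏ i, q i : ℕ) : ℤ) := Nat.cast_mul _ _
    have e3 : ∀ i, ((M * (m * ((q i - 1) * ((∏ k, q k) / q i))) : ℕ) : ℤ) = (M : ℤ) *
        ((m * ((q i - 1) * ((∏ k, q k) / q i)) : ℕ) : ℤ) := fun i => Nat.cast_mul _ _
    have e4 : ∀ i, ((1 * (m * ((q i - 1) * ((∏ k, q k) / q i))) : ℕ) : ℤ) =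
        ((m * ((q i - 1) * ((∏ k, q k) / q i)) : ℕ) : ℤ) := fun i => by rw [one_mul]
    simp only [e1, e2, e3, e4, mul_assoc, one_mul]
  · rw [Finset.mem_singleton.1 ha, hs.eq g hg]
    simp only [Pi.zero_apply, pow_zero, Finset.prod_const_one, one_mul, pow_one]
    congr 1
    change (K.e g v ^ (1 * ∏ i, q i) *
      ∏ i, (D i).e g v ^ (1 * (m * ((q i - 1) * ((∏ k, q k) / q i))))) ^ M =
      K.e g v ^ (M * ∏ i, q i) *
        ∏ i, (D i).e g v ^ (M * (m * ((q i - 1) * ((∏ k, q k) / q i))))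
    rw [mul_pow, ← Finset.prod_pow, ← pow_mul, one_mul, mul_comm (∏ i, q i) M]
    congr 1
    refine Finset.prod_congr rfl fun i _ => ?_
    rw [← pow_mul, one_mul, mul_comm]
  · unfold coverVal
    rw [Finset.sum_singleton]
    simpa using hs0

theorem form_of_semiample (hq : ∀ i, 1 ≤ q i) (h : IsCoverCanonicalSemiample K D R m q β) :
    HasPluricanonicalForm K D R m q β := by
  obtain ⟨M, hM, h⟩ := h
  obtain ⟨y, hy⟩ := exists_coverPt (β := β) hq (0 : Fin n → ℂ)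
    (show IsPt (fun _ => 1 : Co r → ℂ) from fun j => ⟨0, one_ne_zero⟩)
  obtain ⟨S, s, hs, hs0⟩ := h _ _ _ hy
  exact ⟨M, hM, S, s, hs, _, _, _, hy, hs0⟩

theorem not_nef_of_scalar {x : RealClass n c} (h : HasPositiveTotalScalarCurvature Γ x) :
    ¬ IsNefClass x := by
  rintro ⟨h1, h2⟩
  obtain ⟨A, a, b, _, _, ha, _, _, _, h3⟩ := h
  have h4 : 0 ≤ ∑ k, (x.1 (b k) (b k)).re := Finset.sum_nonneg fun k _ => h1 _
  have h5 : 0 ≤ ∑ j, (r j : ℝ) * x.2 j / a j := Finset.sum_nonneg fun j _ =>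
    div_nonneg (mul_nonneg (Nat.cast_nonneg _) (h2 j)) (ha j).le
  linarith

theorem real_inv (hHK : K.IsChernForm HK) (hHD : ∀ i, (D i).IsChernForm (HD i)) (s : ℝ)
    (d : Fin N → ℝ) {g : Trans n r} (hg : g ∈ Γ) (v w : Fin n → ℂ) :
    (realClass K HK D HD s d).1 (g.1.linear v) (g.1.linear w) =
      (realClass K HK D HD s d).1 v w := by
  obtain ⟨hH, f, hf⟩ := hHK
  have h1 := pot_inv hH hf hg v w
  have h2 : ∀ i, HD i (g.1.linear v) (g.1.linear w) = HD i v w := fun i => by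
    obtain ⟨hH, f, hf⟩ := hHD i
    exact pot_inv hH hf hg v w
  simp only [realClass, h1, h2]

theorem real_perm (s : ℝ) (d : Fin N → ℝ) {g : Trans n r} (hg : g ∈ Γ)
    {π : Equiv.Perm (Fin c)} (hπ : Permutes g π) (j : Fin c) :
    (realClass K HK D HD s d).2 (π j) = (realClass K HK D HD s d).2 j := by
  simp only [realClass, K.perm g hg π hπ, (D _).perm g hg π hπ]

/-- **The main theorem.** -/
theorem cover_main (hΓ : IsIsometryGroup Γ) (hρ : IsRamification Γ ρ σ l) (hm : 1 ≤ m)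
    (hK : IsLogPluricanonical K m ρ σ l (fun _ => 1) (fun _ => 0)) (hHK : K.IsChernForm HK)
    (hβ : ∀ i, IsCartier (D i) (β i) (κ i)) (hHD : ∀ i, (D i).IsChernForm (HD i))
    (hR : ∀ i, IsRoot (R i) (q i) (D i)) (hq : ∀ i, 2 ≤ q i)
    (hklt : IsKltReal ρ σ (fun i => 1 - 1 / (q i : ℝ)) β) :
    (¬ HasPluricanonicalForm K D R m q β ↔ HasPositiveTotalScalarCurvature Γ
      (realClass K HK D HD (1 / m) fun i => 1 - 1 / (q i : ℝ))) ∧
    (HasPluricanonicalForm K D R m q β ↔ HasCoverCurrent Γ R q β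
      (realClass K HK D HD (1 / m) fun i => 1 - 1 / (q i : ℝ))) ∧
    (HasPluricanonicalForm K D R m q β ↔ IsCoverCanonicalSemiample K D R m q β) := by
  have hq1 : ∀ i, 1 ≤ q i := fun i => (Nat.le_succ 1).trans (hq i)
  have hx : IsHermitian (realClass K HK D HD (1 / m) fun i => 1 - 1 / (q i : ℝ)).1 :=
    cls_herm hHK.1 (fun i => (hHD i).1) _ _
  have h1 := nef_of_form hΓ hm hHK hβ hHD hR hq1
  have h2 := cover_canonical_semiample (R := R) hΓ hρ hm hK hHK hβ hHD hq hklt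
  have h3 := form_of_semiample (K := K) (D := D) (R := R) (m := m) (β := β) hq1
  have h4 := cover_current_iff hΓ hβ hR hq1 hx
  refine ⟨⟨fun h => ?_, fun h h' => not_nef_of_scalar h (h1 h')⟩,
    ⟨fun h => h4.2 (h1 h), fun h => h3 (h2 (h4.1 h))⟩, ⟨fun h => h2 (h1 h), h3⟩⟩
  exact positive_scalar hΓ hx (fun g hg => real_inv hHK hHD _ _ hg)
    (fun g hg π hπ => real_perm _ _ hg hπ) fun h' => h (h3 (h2 h'))

end Pool.Agent.H896.IG
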