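import Pool.Agent.H896.SC.Cur
import Pool.Agent.H896.SC.Jen

/-!
# Nef classes contain positive currents on coverings
-/

set_option autoImplicit false

namespace Pool.Agent.H896.IG

open MvPolynomial Pool.Agent.T2H08.FB Pool.Agent.W594.SYZ2 Pool.Agent.W594.SYZ2.TQ
  Pool.Agent.TH735.AQ
open Pool.Agent.T2H08 Pool.Agent.H896.IQ

variable {n c : ℕ} {r : Fin c → ℕ} {Γ : Subgroup (Trans n r)} {N : ℕ}
  {D R : Fin N → LineBundle Γ} {q : Fin N → ℕ}
  {β : Fin N → (Fin n → ℂ) → MvPolynomial (Co r) ℂ} {κ : Fin N → Fin c → ℕ}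

/-- the linear form `H (·, w)` -/
def linForm {H : (Fin n → ℂ) → (Fin n → ℂ) → ℂ} (hH : IsHermitian H) (w : Fin n → ℂ) :
    (Fin n → ℂ) →ₗ[ℂ] ℂ where
  toFun v := H v w
  map_add' u v := hH.add_left u v w
  map_smul' a v := hH.smul_left a v w

theorem herm_mean {H : (Fin n → ℂ) → (Fin n → ℂ) → ℂ} (hH : IsHermitian H) (hn : IsNefForm H)
    {ρ : ℝ} (hρ : 0 < ρ) {a : ℂ → Fin n → ℂ} (ha : AnalyticOnNhd ℂ a (Metric.closedBall 0 ρ)) :
    (H (a 0) (a 0)).re ≤ Real.circleAverage (fun t => (H (a t) (a t)).re) 0 ρ := by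
  have h1 : AnalyticOnNhd ℂ (fun t => H (a t) (a 0)) (Metric.closedBall 0 ρ) := by
    have h2 := ((linForm hH (a 0)).toContinuousLinearMap).comp_analyticOnNhd ha
    exact h2
  have h2 := SC.re_mean hρ h1
  have hcd : ContinuousOn (fun t => (H (a t) (a t)).re) (Metric.sphere 0 |ρ|) := by
    rw [abs_of_pos hρ]
    have h3 := (diag_continuous hH).comp_continuousOn
      (ha.continuousOn.mono Metric.sphere_subset_closedBall)
    exact h3
  have hci : CircleIntegrable (fun t => (H (a t) (a t)).re) 0 ρ := hcd.circleIntegrable'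
  have hc1 : ContinuousOn (fun t => (H (a t) (a 0)).re) (Metric.sphere 0 |ρ|) := by
    rw [abs_of_pos hρ]
    exact Complex.continuous_re.comp_continuousOn
      (h1.continuousOn.mono Metric.sphere_subset_closedBall)
  have hi1 : CircleIntegrable (fun t => (H (a t) (a 0)).re) 0 ρ := hc1.circleIntegrable'
  have hi2 : CircleIntegrable (fun t => (2 : ℝ) • (H (a t) (a 0)).re) 0 ρ :=
    (hc1.const_smul (2 : ℝ)).circleIntegrable'
  have hi3 : CircleIntegrable (fun t => (2 : ℝ) • (H (a t) (a 0)).re +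
      (-(H (a 0) (a 0)).re)) 0 ρ := hi2.add (circleIntegrable_const _ _ _)
  have h3 : Real.circleAverage (fun t => (2 : ℝ) • (H (a t) (a 0)).re +
      (-(H (a 0) (a 0)).re)) 0 ρ = (H (a 0) (a 0)).re := by
    rw [Real.circleAverage_fun_add hi2 (circleIntegrable_const _ _ _),
      Real.circleAverage_fun_smul, h2, Real.circleAverage_const, smul_eq_mul]
    ring
  refine (le_of_eq h3.symm).trans (Real.circleAverage_mono hi3 hci fun t _ => ?_)
  · have h4 := hn (a t - a 0)
    have h5 : (H (a t - a 0) (a t - a 0)).re =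
        (H (a t) (a t)).re - 2 * (H (a t) (a 0)).re + (H (a 0) (a 0)).re := by
      have e1 : a t - a 0 = a t + (-1 : ℂ) • a 0 := by rw [neg_one_smul]; rfl
      rw [e1, h_diag_add hH, h_diag_smul hH]
      have e2 : (H (a t) ((-1 : ℂ) • a 0)).re = -(H (a t) (a 0)).re := by
        have e3 : H (a t) ((-1 : ℂ) • a 0) = (starRingEnd ℂ) (H ((-1 : ℂ) • a 0) (a t)) :=
          hH.symm _ _
        rw [e3, hH.smul_left, Complex.conj_re, neg_one_mul, Complex.neg_re]
        have e4 : H (a 0) (a t) = (starRingEnd ℂ) (H (a t) (a 0)) := hH.symm _ _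
        rw [e4, Complex.conj_re]
      rw [norm_neg, norm_one]
      linarith
    simp only [smul_eq_mul]
    linarith

theorem cover_psh_of_nef {x : RealClass n c} (hx : IsHermitian x.1) (hn : IsNefClass x) :
    IsCoverLogPsh (r := r) q β fun v z _ => 1 * (Real.exp (Real.pi * (x.1 v v).re) *
      ∏ j, (∑ i, ‖z ⟨j, i⟩‖ ^ 2) ^ x.2 j) := by
  have hfun : (fun (v : Fin n → ℂ) (z : Co r → ℂ) (_ : Fin N → ℂ) =>
      1 * (Real.exp (Real.pi * (x.1 v v).re) * ∏ j, (∑ i, ‖z ⟨j, i⟩‖ ^ 2) ^ x.2 j)) =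
      fun v z _ => wgt r x v z := by
    funext v z y
    rw [one_mul]
    rfl
  rw [hfun]
  refine ⟨fun v z y => ?_, ?_, ?_⟩
  · exact mul_nonneg (Real.exp_pos _).le (Finset.prod_nonneg fun j _ =>
      Real.rpow_nonneg (Finset.sum_nonneg fun _ _ => sq_nonneg _) _)
  · refine ContinuousOn.upperSemicontinuousOn ?_
    have h1 : Continuous fun p : (Fin n → ℂ) × (Co r → ℂ) × (Fin N → ℂ) => (p.1, p.2.1) := by
      fun_prop
    exact (wgt_continuousOn hx).comp h1.continuousOn fun p hp => hp.1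
  · intro a b y ρ hρ ha hb _ hpt ε hε
    have habs : |ρ| = ρ := abs_of_pos hρ
    have hmaps : ∀ t ∈ Metric.sphere (0 : ℂ) |ρ|, IsPt (b t) := by
      intro t ht
      rw [mem_sphere_zero_iff_norm, habs] at ht
      exact (hpt t ht.le).1
    have hz : IsPt (b 0) := (hpt 0 (by rw [norm_zero]; exact hρ.le)).1
    have hac : ContinuousOn a (Metric.sphere 0 |ρ|) := by
      rw [habs]
      exact ha.continuousOn.mono Metric.sphere_subset_closedBall
    have hbc : ContinuousOn b (Metric.sphere 0 |ρ|) := by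
      rw [habs]
      exact hb.continuousOn.mono Metric.sphere_subset_closedBall
    have hc1 : ContinuousOn (fun t : ℂ => wgt r x (a t) (b t)) (Metric.sphere 0 |ρ|) :=
      (wgt_continuousOn hx).comp (hac.prodMk hbc) fun t ht => hmaps t ht
    have hpos : ∀ t ∈ Metric.sphere (0 : ℂ) |ρ|, 0 < wgt r x (a t) (b t) :=
      fun t ht => wgt_pos (hmaps t ht) x _
    have hc2 : ContinuousOn (fun t : ℂ => Real.log (max (wgt r x (a t) (b t)) ε))
        (Metric.sphere 0 |ρ|) := by
      refine ContinuousOn.log (hc1.sup continuousOn_const) fun t ht => ?_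
      exact (lt_max_of_lt_right hε).ne'
    have hi2 := hc2.circleIntegrable'
    change Real.log (max (wgt r x (a 0) (b 0)) ε) ≤
      Real.circleAverage (fun t : ℂ => Real.log (max (wgt r x (a t) (b t)) ε)) 0 ρ
    rcases le_total (wgt r x (a 0) (b 0)) ε with hle | hle
    · rw [max_eq_right hle]
      have h1 := Real.circleAverage_mono (circleIntegrable_const (Real.log ε) 0 ρ) hi2
        (fun t _ => Real.log_le_log hε (le_max_right _ _))
      rwa [Real.circleAverage_const] at h1
    · rw [max_eq_left hle, log_wgt hz]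
      have hcH : ContinuousOn (fun t : ℂ => (x.1 (a t) (a t)).re) (Metric.sphere 0 |ρ|) :=
        (diag_continuous hx).comp_continuousOn hac
      have hcN : ∀ j, ContinuousOn (fun t : ℂ => Real.log (∑ i, ‖b t ⟨j, i⟩‖ ^ 2))
          (Metric.sphere 0 |ρ|) := by
        intro j
        refine ContinuousOn.log ?_ fun t ht => (nsq_pos (hmaps t ht) j).ne'
        exact continuousOn_finsetSum _ fun i _ =>
          (((continuous_apply _).comp_continuousOn hbc).norm).pow 2
      have h1 : (x.1 (a 0) (a 0)).re ≤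
          Real.circleAverage (fun t : ℂ => (x.1 (a t) (a t)).re) 0 ρ := herm_mean hx hn.1 hρ ha
      have h2 : ∀ j, Real.log (∑ i, ‖b 0 ⟨j, i⟩‖ ^ 2) ≤
          Real.circleAverage (fun t : ℂ => Real.log (∑ i, ‖b t ⟨j, i⟩‖ ^ 2)) 0 ρ := by
        intro j
        refine SC.log_norm_mean hρ (b := fun i t => b t ⟨j, i⟩) (fun i => ?_) fun t ht => ?_
        · exact (ContinuousLinearMap.proj (R := ℂ) (φ := fun _ : Co r => ℂ)
            (⟨j, i⟩ : Co r)).comp_analyticOnNhd hb
        · refine nsq_pos ?_ j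
          rw [mem_closedBall_zero_iff] at ht
          exact (hpt t ht).1
      have hi3 : CircleIntegrable (fun t : ℂ => Real.pi • (x.1 (a t) (a t)).re) 0 ρ :=
        (hcH.const_smul Real.pi).circleIntegrable'
      have hi4 : ∀ j, CircleIntegrable
          (fun t : ℂ => x.2 j • Real.log (∑ i, ‖b t ⟨j, i⟩‖ ^ 2)) 0 ρ := fun j =>
        ((hcN j).const_smul (x.2 j)).circleIntegrable'
      have hc5 : ContinuousOn (fun t : ℂ =>
          ∑ j, x.2 j • Real.log (∑ i, ‖b t ⟨j, i⟩‖ ^ 2)) (Metric.sphere 0 |ρ|) :=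
        continuousOn_finsetSum _ fun j _ => (hcN j).const_smul (x.2 j)
      have h3 : Real.pi * (x.1 (a 0) (a 0)).re + ∑ j, x.2 j * Real.log (∑ i, ‖b 0 ⟨j, i⟩‖ ^ 2) ≤
          Real.circleAverage (fun t : ℂ => Real.pi • (x.1 (a t) (a t)).re +
            ∑ j, x.2 j • Real.log (∑ i, ‖b t ⟨j, i⟩‖ ^ 2)) 0 ρ := by
        rw [Real.circleAverage_fun_add hi3 hc5.circleIntegrable', Real.circleAverage_fun_smul,
          Real.circleAverage_fun_sum fun j _ => hi4 j]
        refine add_le_add (mul_le_mul_of_nonneg_left h1 Real.pi_pos.le)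
          (Finset.sum_le_sum fun j _ => ?_)
        rw [Real.circleAverage_fun_smul]
        exact mul_le_mul_of_nonneg_left (h2 j) (hn.2 j)
      refine h3.trans (Real.circleAverage_mono ?_ hi2 fun t ht => ?_)
      · exact ((hcH.const_smul Real.pi).add hc5).circleIntegrable'
      · have h4 := log_wgt (hmaps t ht) x (a t)
        simp only [smul_eq_mul]
        rw [← h4]
        exact Real.log_le_log (hpos t ht) (le_max_left _ _)

/-- every `(v, z)` lies under a point of the covering -/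
theorem exists_coverPt (hq : ∀ i, 1 ≤ q i) (v : Fin n → ℂ) {z : Co r → ℂ} (hz : IsPt z) :
    ∃ y, IsCoverPt q β v z y := by
  have h1 : ∀ i, ∃ y : ℂ, y ^ q i = eval z (β i v) := fun i => by
    by_cases h0 : eval z (β i v) = 0
    · exact ⟨0, by rw [h0, zero_pow (by have := hq i; omega)]⟩
    · have h5 : (q i : ℂ) ≠ 0 := by
        have : q i ≠ 0 := by have := hq i; omega
        exact_mod_cast this
      refine ⟨Complex.exp (Complex.log (eval z (β i v)) / q i), ?_⟩
      rw [← Complex.exp_nat_mul, mul_div_cancel₀ _ h5, Complex.exp_log h0]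
  choose y hy using h1
  exact ⟨y, hz, hy⟩

/-- **The pullback to `Y` of a class on `X` contains a closed positive current if and only if the class is
nef.** -/
theorem cover_current_iff (hΓ : IsIsometryGroup Γ) (hβ : ∀ i, IsCartier (D i) (β i) (κ i))
    (hR : ∀ i, IsRoot (R i) (q i) (D i)) (hq : ∀ i, 1 ≤ q i) {x : RealClass n c}
    (hx : IsHermitian x.1) : HasCoverCurrent Γ R q β x ↔ IsNefClass x := by
  refine ⟨nef_of_cover_current hΓ hβ hR hq hx, fun h => ⟨fun _ _ _ => 1,
    fun _ _ _ _ _ _ => rfl, fun _ _ _ _ _ => rfl, ?_, fun _ _ _ => zero_le_one,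
    continuousOn_const.upperSemicontinuousOn, cover_psh_of_nef hx h⟩⟩
  obtain ⟨y, hy⟩ := exists_coverPt (β := β) hq (0 : Fin n → ℂ)
    (show IsPt (fun _ => 1 : Co r → ℂ) from fun j => ⟨0, one_ne_zero⟩)
  exact ⟨0, _, y, hy, one_ne_zero⟩

end Pool.Agent.H896.IG
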