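import Mathlib.Analysis.Complex.JensenFormula
import Mathlib.Analysis.SpecialFunctions.Complex.Analytic
import Mathlib.MeasureTheory.Constructions.BorelSpace.Order

/-!
# Local lifts of the disc to cyclic coverings, and the maximum principle
-/

set_option autoImplicit false

namespace Pool.Agent.H896.SC

open Filter Topology

/-- a local root -/
theorem local_root {g : ℂ → ℂ} {t₀ : ℂ} (hg : AnalyticAt ℂ g t₀) {q : ℕ} {c : ℂ} (hc : c ^ q = g t₀)
    (h0 : g t₀ ≠ 0) (hq : 1 ≤ q) :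
    ∃ h : ℂ → ℂ, AnalyticAt ℂ h t₀ ∧ h t₀ = c ∧ ∀ᶠ t in 𝓝 t₀, h t ^ q = g t := by
  have h1 : AnalyticAt ℂ (fun t => g t / g t₀) t₀ := hg.div analyticAt_const h0
  have h2 : g t₀ / g t₀ = 1 := div_self h0
  have h3 : AnalyticAt ℂ (fun t => Complex.log (g t / g t₀)) t₀ := by
    refine h1.clog ?_
    rw [h2]
    exact Complex.one_mem_slitPlane
  refine ⟨fun t => c * Complex.exp (Complex.log (g t / g t₀) / q), ?_, ?_, ?_⟩
  · exact analyticAt_const.mul (h3.div_const).cexp
  · change c * Complex.exp (Complex.log (g t₀ / g t₀) / q) = c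
    rw [h2, Complex.log_one, zero_div, Complex.exp_zero, mul_one]
  · have h4 : ∀ᶠ t in 𝓝 t₀, g t ≠ 0 := hg.continuousAt.eventually_ne h0
    filter_upwards [h4] with t ht
    have h5 : (q : ℂ) ≠ 0 := by
      have : q ≠ 0 := by omega
      exact_mod_cast this
    rw [mul_pow, hc, ← Complex.exp_nat_mul, mul_div_cancel₀ _ h5, Complex.exp_log (div_ne_zero ht h0)]
    field_simp

/-- a local lift after a ramified covering of the disc -/
theorem local_lift {f : ℂ → ℂ} {t₀ : ℂ} (hf : AnalyticAt ℂ f t₀) {q Q' : ℕ} (hq : 1 ≤ q)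
    (hQ : 1 ≤ Q') {y₀ : ℂ} (hy : y₀ ^ q = f t₀) :
    ∃ y : ℂ → ℂ, AnalyticAt ℂ y 0 ∧ y 0 = y₀ ∧
      ∀ᶠ s in 𝓝 (0 : ℂ), y s ^ q = f (t₀ + s ^ (q * Q')) := by
  have hQ0 : q * Q' ≠ 0 := (Nat.mul_pos hq hQ).ne'
  have hmap : Tendsto (fun s : ℂ => t₀ + s ^ (q * Q')) (𝓝 0) (𝓝 t₀) := by
    have h1 : Continuous fun s : ℂ => t₀ + s ^ (q * Q') := by fun_prop
    have h2 := h1.tendsto 0
    rwa [zero_pow hQ0, add_zero] at h2
  by_cases hz : ∀ᶠ z in 𝓝 t₀, f z = 0
  · have h1 : y₀ = 0 := by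
      rw [hz.self_of_nhds] at hy
      exact pow_eq_zero_iff (by omega) |>.1 hy
    refine ⟨fun _ => 0, analyticAt_const, h1.symm, ?_⟩
    filter_upwards [hmap.eventually hz] with s hs
    rw [hs, zero_pow (by omega)]
  · obtain ⟨a, g, hg, hg0, hfg⟩ := hf.exists_eventuallyEq_pow_smul_nonzero_iff.2 hz
    obtain ⟨c, hc, hcy⟩ : ∃ c : ℂ, c ^ q = g t₀ ∧ (0 : ℂ) ^ (Q' * a) * c = y₀ := by
      have h1 := hfg.self_of_nhds
      rw [sub_self, smul_eq_mul] at h1
      rcases Nat.eq_zero_or_pos a with ha | ha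
      · subst ha
        refine ⟨y₀, ?_, by simp⟩
        rw [hy, h1, pow_zero, one_mul]
      · obtain ⟨c, hc⟩ : ∃ c : ℂ, c ^ q = g t₀ := by
          have h5 : (q : ℂ) ≠ 0 := by
            have : q ≠ 0 := by omega
            exact_mod_cast this
          refine ⟨Complex.exp (Complex.log (g t₀) / q), ?_⟩
          rw [← Complex.exp_nat_mul, mul_div_cancel₀ _ h5, Complex.exp_log hg0]
        refine ⟨c, hc, ?_⟩
        rw [zero_pow ha.ne', zero_mul] at h1
        rw [h1] at hy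
        rw [pow_eq_zero_iff (by omega) |>.1 hy, zero_pow (Nat.mul_pos hQ ha).ne', zero_mul]
    obtain ⟨h, hh, hh0, hhq⟩ := local_root hg hc hg0 hq
    refine ⟨fun s => s ^ (Q' * a) * h (t₀ + s ^ (q * Q')), ?_, ?_, ?_⟩
    · refine (analyticAt_id.pow _).mul ?_
      have h1 : AnalyticAt ℂ (fun s : ℂ => t₀ + s ^ (q * Q')) 0 :=
        analyticAt_const.add (analyticAt_id.pow _)
      refine AnalyticAt.fun_comp (f := fun s : ℂ => t₀ + s ^ (q * Q')) ?_ h1
      rw [zero_pow hQ0, add_zero]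
      exact hh
    · change (0 : ℂ) ^ (Q' * a) * h (t₀ + 0 ^ (q * Q')) = y₀
      rw [zero_pow hQ0, add_zero, hh0, hcy]
    · filter_upwards [hmap.eventually hfg, hmap.eventually hhq] with s hs1 hs2
      rw [mul_pow, hs2, hs1, add_sub_cancel_left, smul_eq_mul, ← pow_mul, ← pow_mul]
      congr 2
      ring

/-- the inverse image of a compact set in a cyclic covering is compact -/
theorem compact_cover {T : Type*} [TopologicalSpace T] [T2Space T] {N : ℕ} {K : Set T}
    (hK : IsCompact K) {q : Fin N → ℕ} (hq : ∀ i, 1 ≤ q i) {f : Fin N → T → ℂ}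
    (hf : ∀ i, ContinuousOn (f i) K) :
    IsCompact {p : T × (Fin N → ℂ) | p.1 ∈ K ∧ ∀ i, p.2 i ^ q i = f i p.1} := by
  have h1 : ∀ i, ∃ C : ℝ, ∀ t ∈ K, ‖f i t‖ ≤ C := fun i => hK.exists_bound_of_continuousOn (hf i)
  choose C hC using h1
  set B : ℝ := 1 + ∑ i, |C i| with hB
  have hK2 : IsCompact (K ×ˢ Metric.closedBall (0 : Fin N → ℂ) B) :=
    hK.prod (isCompact_closedBall _ _)
  have h2 : IsClosed ((K ×ˢ Metric.closedBall (0 : Fin N → ℂ) B) ∩
      (fun p : T × (Fin N → ℂ) => fun i => p.2 i ^ q i - f i p.1) ⁻¹' {0}) := by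
    refine ContinuousOn.preimage_isClosed_of_isClosed ?_ hK2.isClosed isClosed_singleton
    refine continuousOn_pi.2 fun i => ?_
    refine ContinuousOn.sub (Continuous.continuousOn (by fun_prop)) ?_
    exact (hf i).comp continuousOn_fst fun p hp => hp.1
  refine hK2.of_isClosed_subset (s := (K ×ˢ Metric.closedBall (0 : Fin N → ℂ) B)) ?_ ?_
  · convert h2 using 1
    ext p
    constructor
    · rintro ⟨hp, hy⟩
      refine ⟨⟨hp, ?_⟩, ?_⟩
      · rw [mem_closedBall_zero_iff]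
        refine (pi_norm_le_iff_of_nonneg (by positivity)).2 fun i => ?_
        by_contra hcon
        push Not at hcon
        have h3 : |C i| ≤ ∑ i, |C i| :=
          Finset.single_le_sum (f := fun i => |C i|) (fun i _ => abs_nonneg _) (Finset.mem_univ i)
        have h4 : 1 ≤ ‖p.2 i‖ := by
          have : 0 ≤ ∑ i, |C i| := Finset.sum_nonneg fun i _ => abs_nonneg _
          linarith
        have h5 : ‖p.2 i‖ ≤ ‖p.2 i‖ ^ q i := le_self_pow₀ h4 (by have := hq i; omega)
        rw [← norm_pow, hy i] at h5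
        have h6 := hC i p.1 hp
        have h7 := le_abs_self (C i)
        linarith
      · change (fun i => p.2 i ^ q i - f i p.1) = 0
        funext i
        rw [hy i, sub_self]
        rfl
    · rintro ⟨⟨hp, _⟩, hy⟩
      refine ⟨hp, fun i => ?_⟩
      have h3 := congrFun (show (fun i => p.2 i ^ q i - f i p.1) = 0 from hy) i
      exact sub_eq_zero.1 h3
  · rintro p ⟨hp, hy⟩
    refine ⟨hp, ?_⟩
    rw [mem_closedBall_zero_iff]
    refine (pi_norm_le_iff_of_nonneg (by positivity)).2 fun i => ?_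
    by_contra hcon
    push Not at hcon
    have h3 : |C i| ≤ ∑ i, |C i| :=
      Finset.single_le_sum (f := fun i => |C i|) (fun i _ => abs_nonneg _) (Finset.mem_univ i)
    have h4 : 1 ≤ ‖p.2 i‖ := by
      have : 0 ≤ ∑ i, |C i| := Finset.sum_nonneg fun i _ => abs_nonneg _
      linarith
    have h5 : ‖p.2 i‖ ≤ ‖p.2 i‖ ^ q i := le_self_pow₀ h4 (by have := hq i; omega)
    rw [← norm_pow, hy i] at h5
    have h6 := hC i p.1 hp
    have h7 := le_abs_self (C i)
    linarith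

end Pool.Agent.H896.SC
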